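import Pool.Agent.L7h3.SC.Stm

/-! Project SC, part BDD: the convergent case. -/

set_option autoImplicit false

namespace Pool.Agent.L7h96.SC

open Pool.Agent.L7h3.SC Filter Topology

/-- the limit of a copy -/
theorem limit_copy {E : Type} [NormedAddCommGroup E] [CompleteSpace E] {x p : ℕ → E} {l : E}
    (hx : Tendsto x atTop (𝓝 l)) (hp : Copy x p) : ∃ l', Tendsto p atTop (𝓝 l') ∧
      ∀ i, dist l' (p i) = dist l (x i) := by
  have hc : CauchySeq p := by
    have h1 := hx.cauchySeq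
    rw [Metric.cauchySeq_iff] at h1 ⊢
    intro ε hε
    obtain ⟨N, hN⟩ := h1 ε hε
    exact ⟨N, fun m hm n hn => by rw [hp]; exact hN m hm n hn⟩
  obtain ⟨l', hl'⟩ := cauchySeq_tendsto_of_complete hc
  refine ⟨l', hl', fun i => ?_⟩
  have h1 : Tendsto (fun j => dist (p j) (p i)) atTop (𝓝 (dist l' (p i))) :=
    hl'.dist tendsto_const_nhds
  have h2 : Tendsto (fun j => dist (x j) (x i)) atTop (𝓝 (dist l (x i))) :=
    hx.dist tendsto_const_nhds
  have h3 : (fun j => dist (p j) (p i)) = fun j => dist (x j) (x i) := funext fun j => hp j i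
  rw [h3] at h1
  exact tendsto_nhds_unique h1 h2

/-- a subsequence with a limit direction -/
theorem subseq_dir {E : Type} [NormedAddCommGroup E] [NormedSpace ℝ E] [FiniteDimensional ℝ E]
    {p p' : ℕ → E} (h : ¬ {j | p j ≠ p' j}.Finite) : ∃ (φ : ℕ → ℕ) (w : E), StrictMono φ ∧
      ‖w‖ = 1 ∧ (∀ n, p (φ n) ≠ p' (φ n)) ∧
      Tendsto (fun n => ‖p (φ n) - p' (φ n)‖⁻¹ • (p (φ n) - p' (φ n))) atTop (𝓝 w) := by
  have h1 : ∃ᶠ j in atTop, p j ≠ p' j := Nat.frequently_atTop_iff_infinite.2 h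
  obtain ⟨φ, hφ, hφn⟩ := extraction_of_frequently_atTop h1
  have hn : ∀ n, ‖p (φ n) - p' (φ n)‖⁻¹ • (p (φ n) - p' (φ n)) ∈ Metric.sphere (0 : E) 1 := by
    intro n
    rw [mem_sphere_zero_iff_norm, norm_smul, norm_inv, norm_norm]
    exact inv_mul_cancel₀ (norm_ne_zero_iff.2 (sub_ne_zero.2 (hφn n)))
  obtain ⟨w, hw, ψ, hψ, hlim⟩ := (isCompact_sphere (0 : E) 1).tendsto_subseq hn
  refine ⟨φ ∘ ψ, w, hφ.comp hψ, mem_sphere_zero_iff_norm.1 hw, fun n => hφn _, hlim⟩

/-- **BDD** -/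
theorem s_BDD (hO : S_ORT) (hT : S_TAN) (hC : S_COLL) (hCI : S_CIRC) (hF : S_FIN) : S_BDD := by
  intro E _ _ _ hE x l hx hl hcol s q hs
  have : FiniteDimensional ℝ E := FiniteDimensional.of_finrank_pos (by rw [hE]; norm_num)
  have : CompleteSpace E := FiniteDimensional.complete ℝ E
  obtain ⟨a, b, c, hab, -, -, rfl⟩ := Finset.card_eq_three.1 hs
  have ha : a ∈ ({a, b, c} : Finset ℕ) := by simp
  have hb : b ∈ ({a, b, c} : Finset ℕ) := by simp
  by_cases hq : q a = q b
  · have : {p : ℕ → E | Copy x p ∧ ∀ i ∈ ({a, b, c} : Finset ℕ), p i = q i} = ∅ := by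
      ext p
      simp only [Set.mem_empty_iff_false, iff_false]
      rintro ⟨h1, h2⟩
      have h3 := h1 a b
      rw [h2 a ha, h2 b hb, hq, dist_self] at h3
      exact hab (hx (dist_eq_zero.1 h3.symm))
    rw [this]
    exact Set.countable_empty
  have hla : l ≠ x a := by
    rintro rfl
    apply hcol a b hab
    have : ({x a, x b, x a} : Set E) = {x b, x a} := by
      ext y
      simp only [Set.mem_insert_iff, Set.mem_singleton_iff]
      tauto
    rw [this]
    exact collinear_pair ℝ _ _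
  -- the limits
  have hfin := hCI E hE (q a) (q b) (dist l (x a)) (dist l (x b)) hq
  have hsub : {p : ℕ → E | Copy x p ∧ ∀ i ∈ ({a, b, c} : Finset ℕ), p i = q i} ⊆
      ⋃ l' ∈ {z | dist z (q a) = dist l (x a) ∧ dist z (q b) = dist l (x b)},
        {p : ℕ → E | (Copy x p ∧ ∀ i ∈ ({a, b, c} : Finset ℕ), p i = q i) ∧
          Tendsto p atTop (𝓝 l') ∧ ∀ i, dist l' (p i) = dist l (x i)} := by
    rintro p ⟨h1, h2⟩
    obtain ⟨l', h3, h4⟩ := limit_copy hl h1
    rw [Set.mem_iUnion₂]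
    refine ⟨l', ⟨?_, ?_⟩, ⟨h1, h2⟩, h3, h4⟩
    · rw [← h2 a ha]
      exact h4 a
    · rw [← h2 b hb]
      exact h4 b
  refine Set.Countable.mono hsub (hfin.countable.biUnion fun l' _ => ?_)
  refine hF E _ (fun j => {z | dist z (q a) = dist (x j) (x a) ∧ dist z (q b) = dist (x j) (x b)})
    (fun j => (hCI E hE (q a) (q b) _ _ hq).countable) ?_ ?_
  · rintro p ⟨⟨h1, h2⟩, -⟩ j
    refine ⟨?_, ?_⟩
    · rw [← h2 a ha]
      exact h1 j a
    · rw [← h2 b hb]
      exact h1 j b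
  · rintro p ⟨⟨h1, h2⟩, h3, h4⟩ p' ⟨⟨h1', h2'⟩, h3', h4'⟩
    by_contra hinf
    obtain ⟨φ, w, hφ, hw, hne, hlim⟩ := subseq_dir hinf
    have hz : Tendsto (fun n => p (φ n)) atTop (𝓝 l') := h3.comp hφ.tendsto_atTop
    have hz' : Tendsto (fun n => p' (φ n)) atTop (𝓝 l') := h3'.comp hφ.tendsto_atTop
    have key : ∀ i ∈ ({a, b, c} : Finset ℕ), Bort (l' - q i) w := by
      intro i hi
      refine hT E _ _ l' (q i) w hz hz' hne (fun n => ?_) hlim
      have e1 := h1 (φ n) i
      have e2 := h1' (φ n) i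
      rw [h2 i hi] at e1
      rw [h2' i hi] at e2
      rw [e1, e2]
    have hw0 : w ≠ 0 := by
      intro h
      rw [h, norm_zero] at hw
      exact zero_ne_one hw
    have hqa : l' - q a ≠ 0 := by
      rw [sub_ne_zero]
      intro h
      have h5 := h4 a
      rw [h2 a ha, h, dist_self] at h5
      exact hla (dist_eq_zero.1 h5.symm)
    obtain ⟨r, hr⟩ := hO E hE w (l' - q a) (l' - q b) hw0 hqa (key a ha) (key b hb)
    have hcoll : Collinear ℝ {q a, q b, l'} := by
      rw [collinear_iff_of_mem (p₀ := l') (by simp)]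
      refine ⟨l' - q a, fun y hy => ?_⟩
      simp only [Set.mem_insert_iff, Set.mem_singleton_iff] at hy
      rcases hy with rfl | rfl | rfl
      · refine ⟨-1, ?_⟩
        rw [vadd_eq_add, neg_one_smul]
        abel
      · refine ⟨-r, ?_⟩
        rw [vadd_eq_add, neg_smul, ← hr]
        abel
      · exact ⟨0, by simp⟩
    refine hcol a b hab (hC E (q a) (q b) l' (x a) (x b) l ?_ ?_ ?_ hcoll)
    · have := h1 a b
      rw [h2 a ha, h2 b hb] at this
      exact this.symm
    · have := h4 b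
      rw [h2 b hb] at this
      rw [dist_comm, dist_comm (q b)]
      exact this.symm
    · have := h4 a
      rw [h2 a ha] at this
      rw [dist_comm, dist_comm (q a)]
      exact this.symm

end Pool.Agent.L7h96.SC
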