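import Pool.Agent.L7h3.SC.Stm

/-! Project SC, part PAR: points equidistant from two sequences which go to infinity. -/

set_option autoImplicit false

namespace Pool.Agent.L7h96.SC

open Pool.Agent.L7h3.SC Filter Topology

theorem bort_scale {E : Type} [NormedAddCommGroup E] [NormedSpace ℝ E] {a w : E} (h : Bort a w)
    (c t : ℝ) : ‖c • a‖ ≤ ‖c • a + t • w‖ := by
  by_cases hc : c = 0
  · rw [hc, zero_smul, norm_zero]
    exact norm_nonneg _
  · have h1 := h (t / c)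
    have h2 : c • a + t • w = c • (a + (t / c) • w) := by
      rw [smul_add, smul_smul]
      congr 2
      field_simp
    rw [h2, norm_smul, norm_smul]
    exact mul_le_mul_of_nonneg_left h1 (norm_nonneg c)

theorem bort_smul {E : Type} [NormedAddCommGroup E] [NormedSpace ℝ E] {a w : E} (h : Bort a w)
    (c : ℝ) : Bort (c • a) w := fun t => bort_scale h c t

/-- one pair of points -/
theorem one {E : Type} [NormedAddCommGroup E] [NormedSpace ℝ E] [StrictConvexSpace ℝ E]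
    (hE : Module.finrank ℝ E = 2) (hO : S_ORT) (hP : S_PER) (hOF : S_OFF) {z z' y : E} (hne : z ≠ z')
    (hz : ‖z‖ = ‖z'‖) (hy : ‖z - y‖ = ‖z' - y‖) (hbig : 2 * ‖z - z'‖ + ‖y‖ < ‖z'‖) :
    ∃ (a : E) (c : ℝ), ‖a - z'‖ ≤ ‖z - z'‖ ∧ |c| ≤ ‖y‖ ∧
      ‖y - c • (‖a‖⁻¹ • a)‖ * ‖a‖ ≤ ‖z - z'‖ * ‖y‖ := by
  set s := ‖z - z'‖ with hs
  have hs0 : 0 < s := norm_pos_iff.2 (sub_ne_zero.2 hne)
  set u := s⁻¹ • (z - z') with hu
  have hu1 : ‖u‖ = 1 := by
    rw [hu, norm_smul, norm_inv, Real.norm_of_nonneg hs0.le]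
    exact inv_mul_cancel₀ hs0.ne'
  have hu0 : u ≠ 0 := by
    intro h
    rw [h, norm_zero] at hu1
    exact zero_ne_one hu1
  have hsu : s • u = z - z' := by
    rw [hu, smul_smul, mul_inv_cancel₀ hs0.ne', one_smul]
  obtain ⟨τ, hτ0, hτs, hτ⟩ := hP E z' u s hs0 (by rw [hsu, add_sub_cancel, hz])
  obtain ⟨σ, hσ0, hσs, hσ⟩ := hP E (z' - y) u s hs0 (by
    rw [hsu, show z' - y + (z - z') = z - y by abel, hy])
  set a := z' + τ • u with ha
  set b := z' - y + σ • u with hb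
  have hτu : ‖τ • u‖ ≤ s := by
    rw [norm_smul, hu1, mul_one, Real.norm_of_nonneg hτ0]
    exact hτs
  have hσu : ‖σ • u‖ ≤ s := by
    rw [norm_smul, hu1, mul_one, Real.norm_of_nonneg hσ0]
    exact hσs
  have haz : ‖a - z'‖ ≤ s := by
    rw [ha, add_sub_cancel_left]
    exact hτu
  have hapos : 0 < ‖a‖ := by
    have h1 : ‖z'‖ ≤ ‖a‖ + ‖a - z'‖ := by
      have := norm_sub_le a (a - z')
      rwa [sub_sub_cancel] at this
    have h2 := norm_nonneg y
    linarith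
  have ha0 : a ≠ 0 := norm_pos_iff.1 hapos
  obtain ⟨r, hr⟩ := hO E hE u a b hu0 ha0 hτ hσ
  set e := ‖a‖⁻¹ • a with he
  have he1 : ‖e‖ = 1 := by
    rw [he, norm_smul, norm_inv, norm_norm]
    exact inv_mul_cancel₀ hapos.ne'
  have he0 : e ≠ 0 := by
    intro h
    rw [h, norm_zero] at he1
    exact zero_ne_one he1
  have hae : a = ‖a‖ • e := by
    rw [he, smul_smul, mul_inv_cancel₀ hapos.ne', one_smul]
  set α := ‖a‖ with hα
  set β := r * α with hβ
  have hbe : b = β • e := by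
    rw [hr, hβ, mul_smul, ← hae]
  have hBe : Bort e u := by
    rw [he]
    exact bort_smul hτ _
  have hab : a - b = y + (τ - σ) • u := by
    rw [ha, hb, sub_smul]
    abel
  have hy1 : y = (α - β) • e + (σ - τ) • u := by
    have h1 : (α - β) • e = a - b := by
      rw [sub_smul, ← hae, ← hbe]
    rw [h1, hab, sub_smul, sub_smul]
    abel
  have hc : |α - β| ≤ ‖y‖ := by
    have h1 := bort_scale hBe (α - β) (σ - τ)
    rw [← hy1, norm_smul, he1, mul_one, Real.norm_eq_abs] at h1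
    exact h1
  have hβpos : 0 < β := by
    have h1 : ‖z'‖ ≤ ‖a‖ + ‖a - z'‖ := by
      have := norm_sub_le a (a - z')
      rwa [sub_sub_cancel] at this
    have h2 := (abs_le.1 hc).2
    have h3 : ‖a‖ = α := rfl
    linarith
  have hyc : y - (α - β) • e = (σ - τ) • u := by
    nth_rewrite 1 [hy1]
    rw [add_sub_cancel_left]
  have hz1 : α • e - τ • u = z' := by
    rw [← hae, ha, add_sub_cancel_right]
  have hz2 : α • e + (s - τ) • u = z := by
    rw [← hae, ha, sub_smul, hsu]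
    abel
  have hw1 : β • e - σ • u = z' - y := by
    rw [← hbe, hb, add_sub_cancel_right]
  have hw2 : β • e + (s - σ) • u = z - y := by
    rw [← hbe, hb, sub_smul, hsu]
    abel
  have hoff : |σ - τ| * α ≤ s * ‖y‖ := by
    rcases le_total β α with h | h
    · have h1 := hOF E e u s α β τ σ he0 hu0 hBe hs0 hβpos h hτ0 hτs hσ0 hσs
        (by rw [hz1, hz2, hz]) (by rw [hw1, hw2, hy])
      refine h1.trans (mul_le_mul_of_nonneg_left ?_ hs0.le)
      exact (le_abs_self _).trans hc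
    · have h1 := hOF E e u s β α σ τ he0 hu0 hBe hs0 hapos h hσ0 hσs hτ0 hτs
        (by rw [hw1, hw2, hy]) (by rw [hz1, hz2, hz])
      rw [abs_sub_comm] at h1
      have h2 : |σ - τ| * α ≤ |σ - τ| * β := mul_le_mul_of_nonneg_left h (abs_nonneg _)
      refine h2.trans (h1.trans (mul_le_mul_of_nonneg_left ?_ hs0.le))
      rw [abs_sub_comm] at hc
      exact (le_abs_self _).trans hc
  refine ⟨a, α - β, haz, hc, ?_⟩
  rw [← he, hyc, norm_smul, hu1, mul_one, Real.norm_eq_abs]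
  exact hoff

/-- **PAR** -/
theorem s_PAR (hO : S_ORT) (hP : S_PER) (hOF : S_OFF) : S_PAR := by
  intro E _ _ _ hE z z' v y hne hz hinf hzv hzv' hy
  have : FiniteDimensional ℝ E := FiniteDimensional.of_finrank_pos (by rw [hE]; norm_num)
  have hinf' : Tendsto (fun n => ‖z' n‖) atTop atTop := by
    simpa only [hz] using hinf
  -- the distance is small compared with the norm
  have hs : Tendsto (fun n => ‖z' n‖⁻¹ * ‖z n - z' n‖) atTop (𝓝 0) := by
    have h1 : Tendsto (fun n => ‖z n‖⁻¹ • z n - ‖z' n‖⁻¹ • z' n) atTop (𝓝 (v - v)) :=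
      hzv.sub hzv'
    rw [sub_self] at h1
    have h2 := h1.norm
    rw [norm_zero] at h2
    refine h2.congr fun n => ?_
    rw [hz n, ← smul_sub, norm_smul, norm_inv, norm_norm]
  have hinv : Tendsto (fun n => ‖z' n‖⁻¹) atTop (𝓝 0) := hinf'.inv_tendsto_atTop
  have hbig : ∀ᶠ n in atTop, 2 * ‖z n - z' n‖ + ‖y‖ < ‖z' n‖ := by
    have h1 : Tendsto (fun n => 2 * (‖z' n‖⁻¹ * ‖z n - z' n‖) + ‖z' n‖⁻¹ * ‖y‖) atTop
        (𝓝 (2 * 0 + 0 * ‖y‖)) := (hs.const_mul 2).add (hinv.mul_const _)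
    have h2 : (2 * 0 + 0 * ‖y‖ : ℝ) < 1 := by norm_num
    filter_upwards [h1.eventually (gt_mem_nhds h2), hinf'.eventually_gt_atTop 0] with n hn hn0
    have h3 : (2 * ‖z n - z' n‖ + ‖y‖) = ‖z' n‖ *
        (2 * (‖z' n‖⁻¹ * ‖z n - z' n‖) + ‖z' n‖⁻¹ * ‖y‖) := by
      field_simp
    rw [h3]
    calc _ < ‖z' n‖ * 1 := mul_lt_mul_of_pos_left hn hn0
      _ = _ := mul_one _
  have hex : ∀ n, ∃ (a : E) (c : ℝ), 2 * ‖z n - z' n‖ + ‖y‖ < ‖z' n‖ →
      ‖a - z' n‖ ≤ ‖z n - z' n‖ ∧ |c| ≤ ‖y‖ ∧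
      ‖y - c • (‖a‖⁻¹ • a)‖ * ‖a‖ ≤ ‖z n - z' n‖ * ‖y‖ := by
    intro n
    by_cases h : 2 * ‖z n - z' n‖ + ‖y‖ < ‖z' n‖
    · obtain ⟨a, c, h1⟩ := one hE hO hP hOF (hne n) (hz n) (hy n) h
      exact ⟨a, c, fun _ => h1⟩
    · exact ⟨0, 0, fun h' => absurd h' h⟩
  choose a c hac using hex
  -- the direction of `a n`
  have hg : Tendsto (fun n => ‖z' n‖⁻¹ • a n) atTop (𝓝 v) := by
    have h1 : Tendsto (fun n => ‖z' n‖⁻¹ • (a n - z' n)) atTop (𝓝 0) := by
      rw [tendsto_zero_iff_norm_tendsto_zero]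
      refine squeeze_zero' (Eventually.of_forall fun n => norm_nonneg _) ?_ hs
      filter_upwards [hbig] with n hn
      rw [norm_smul, norm_inv, norm_norm]
      exact mul_le_mul_of_nonneg_left (hac n hn).1 (inv_nonneg.2 (norm_nonneg _))
    have h2 := h1.add hzv'
    rw [zero_add] at h2
    refine h2.congr fun n => ?_
    rw [← smul_add, sub_add_cancel]
  have hv1 : ‖v‖ = 1 := by
    have h1 := hzv'.norm
    have h2 : ∀ᶠ n in atTop, ‖‖z' n‖⁻¹ • z' n‖ = 1 := by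
      filter_upwards [hinf'.eventually_gt_atTop 0] with n hn
      rw [norm_smul, norm_inv, norm_norm]
      exact inv_mul_cancel₀ hn.ne'
    exact tendsto_nhds_unique (h1.congr' h2) tendsto_const_nhds
  have hga : Tendsto (fun n => ‖z' n‖⁻¹ * ‖a n‖) atTop (𝓝 1) := by
    have h1 := hg.norm
    rw [hv1] at h1
    refine h1.congr fun n => ?_
    rw [norm_smul, norm_inv, norm_norm]
  have he : Tendsto (fun n => ‖a n‖⁻¹ • a n) atTop (𝓝 v) := by
    have h1 : Tendsto (fun n => (‖z' n‖⁻¹ * ‖a n‖)⁻¹ • (‖z' n‖⁻¹ • a n)) atTop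
        (𝓝 ((1 : ℝ)⁻¹ • v)) := (hga.inv₀ one_ne_zero).smul hg
    rw [inv_one, one_smul] at h1
    refine h1.congr' ?_
    filter_upwards [hinf'.eventually_gt_atTop 0] with n hn
    rw [smul_smul]
    congr 1
    rw [mul_inv, inv_inv, mul_comm ‖z' n‖, mul_assoc, mul_inv_cancel₀ hn.ne', mul_one]
  -- the distance from `y` to `c n • e n`
  have hd : Tendsto (fun n => ‖y - c n • (‖a n‖⁻¹ • a n)‖) atTop (𝓝 0) := by
    have h1 : Tendsto (fun n => (‖z' n‖⁻¹ * ‖z n - z' n‖) * ‖y‖ * (‖z' n‖⁻¹ * ‖a n‖)⁻¹) atTop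
        (𝓝 (0 * ‖y‖ * 1⁻¹)) := (hs.mul_const _).mul (hga.inv₀ one_ne_zero)
    rw [zero_mul, zero_mul] at h1
    refine squeeze_zero' (Eventually.of_forall fun n => norm_nonneg _) ?_ h1
    filter_upwards [hbig, hinf'.eventually_gt_atTop 0,
      hga.eventually (lt_mem_nhds (show (0 : ℝ) < 1 by norm_num))] with n hn hn0 hn1
    have h2 := (hac n hn).2.2
    have ha0 : 0 < ‖a n‖ := by
      by_contra h3
      have : ‖a n‖ = 0 := le_antisymm (not_lt.1 h3) (norm_nonneg _)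
      rw [this, mul_zero] at hn1
      exact lt_irrefl _ hn1
    have h4 : (‖z' n‖⁻¹ * ‖z n - z' n‖) * ‖y‖ * (‖z' n‖⁻¹ * ‖a n‖)⁻¹ =
        ‖z n - z' n‖ * ‖y‖ / ‖a n‖ := by
      field_simp
    rw [h4, le_div_iff₀ ha0]
    exact h2
  have hlim : Tendsto (fun n => c n • v) atTop (𝓝 y) := by
    rw [tendsto_iff_norm_sub_tendsto_zero]
    have h1 : Tendsto (fun n => ‖‖a n‖⁻¹ • a n - v‖) atTop (𝓝 0) :=
      tendsto_iff_norm_sub_tendsto_zero.1 he
    have h2 := hd.add (h1.const_mul ‖y‖)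
    rw [mul_zero, add_zero] at h2
    refine squeeze_zero' (Eventually.of_forall fun n => norm_nonneg _) ?_ h2
    filter_upwards [hbig] with n hn
    have h3 : c n • v - y = -(y - c n • (‖a n‖⁻¹ • a n)) - c n • (‖a n‖⁻¹ • a n - v) := by
      rw [smul_sub]
      abel
    rw [h3]
    refine (norm_sub_le _ _).trans ?_
    rw [norm_neg, norm_smul, Real.norm_eq_abs]
    gcongr
    exact (hac n hn).2.1
  have hcl : IsClosed ((Submodule.span ℝ {v} : Submodule ℝ E) : Set E) :=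
    Submodule.closed_of_finiteDimensional _
  have hmem : y ∈ (Submodule.span ℝ {v} : Submodule ℝ E) :=
    hcl.mem_of_tendsto hlim (Eventually.of_forall fun n =>
      Submodule.smul_mem _ _ (Submodule.mem_span_singleton_self v))
  obtain ⟨r, hr⟩ := Submodule.mem_span_singleton.1 hmem
  exact ⟨r, hr.symm⟩

end Pool.Agent.L7h96.SC
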