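import Pool.Agent.L7h96.SC.Slc

set_option autoImplicit false

/-!
# The limit `K → ∞` and the integration over the shifts
-/

open MeasureTheory Set Filter Topology Real
open scoped ENNReal Matrix

namespace Pool.Agent.L7h96.SC

open Pool.Agent.L7h99.SC
open LTd hiding cc

theorem hcs_shift {m : ℕ} {ℓ : ℝ} {h : ℝ → ℝ} (h0 : ∀ t, ℓ ≤ |t| → h t = 0)
    {B : (Fin (m + 1) → ℝ) → ℝ} (hBc : HasCompactSupport B) :
    HasCompactSupport (Function.uncurry fun (x : ℝ) (z : Fin (m + 1) → ℝ) => h (z 0 - x) * B z) := by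
  have hK : IsCompact (tsupport B ×ˢ Icc (-ℓ) ℓ) := hBc.isCompact.prod isCompact_Icc
  have hφ : Continuous fun p : (Fin (m + 1) → ℝ) × ℝ => ((p.1 0 - p.2, p.1) : ℝ × (Fin (m + 1) → ℝ)) :=
    Continuous.prodMk (((continuous_apply 0).comp continuous_fst).sub continuous_snd) continuous_fst
  refine HasCompactSupport.intro (hK.image hφ) fun p hp => ?_
  obtain ⟨x, z⟩ := p
  show h (z 0 - x) * B z = 0
  by_cases h1 : z ∈ tsupport B
  · have h3 : ℓ ≤ |z 0 - x| := by
      by_contra h4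
      rw [not_le, abs_lt] at h4
      refine hp ⟨(z, z 0 - x), ⟨h1, ⟨by linarith [h4.1], by linarith [h4.2]⟩⟩, ?_⟩
      simp
    rw [h0 _ h3, zero_mul]
  · rw [image_eq_zero_of_notMem_tsupport h1, mul_zero]

theorem c_shift {m : ℕ} {h : ℝ → ℝ} (hc : Continuous h)
    {B : (Fin (m + 1) → ℝ) → ℝ} (hB : Continuous B) :
    Continuous (Function.uncurry fun (x : ℝ) (z : Fin (m + 1) → ℝ) => h (z 0 - x) * B z) := by
  have h0 : Continuous fun p : ℝ × (Fin (m + 1) → ℝ) => p.2 0 - p.1 := by fun_prop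
  have h1 : Continuous fun p : ℝ × (Fin (m + 1) → ℝ) => h (p.2 0 - p.1) * B p.2 :=
    (hc.comp h0).mul (hB.comp continuous_snd)
  exact h1

theorem J_int {m : ℕ} {ℓ : ℝ} {h : ℝ → ℝ} (hc : Continuous h) (h0 : ∀ t, ℓ ≤ |t| → h t = 0)
    {B : (Fin (m + 1) → ℝ) → ℝ} (hB : Continuous B) (hBc : HasCompactSupport B) :
    Integrable (fun x : ℝ => ∫ z, h (z 0 - x) * B z) ∧
    ∫ x : ℝ, ∫ z, h (z 0 - x) * B z = (∫ t, h t) * ∫ z, B z := by
  have h1 := c_shift (m := m) hc hB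
  have h2 := hcs_shift (m := m) h0 hBc
  constructor
  · have h3 := par volume (fun (x : ℝ) (z : Fin (m + 1) → ℝ) => h (z 0 - x) * B z) h1 h2
    exact h3.1.integrable_of_hasCompactSupport h3.2
  · rw [integral_integral_swap_of_hasCompactSupport h1 h2, ← integral_const_mul]
    refine integral_congr_ae (Eventually.of_forall fun z => ?_)
    show ∫ x, h (z 0 - x) * B z = (∫ t, h t) * B z
    rw [integral_mul_const, integral_sub_left_eq_self (fun t => h t) volume (z 0)]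

/-- The function `(x, y) ↦ ∫ h(t - x) B(t, y) dt`. -/
theorem P_cont {m : ℕ} {ℓ : ℝ} {h : ℝ → ℝ} (hc : Continuous h) (h0 : ∀ t, ℓ ≤ |t| → h t = 0)
    {B : (Fin (m + 1) → ℝ) → ℝ} (hB : Continuous B) (hBc : HasCompactSupport B) :
    Continuous (fun p : ℝ × (Fin m → ℝ) => ∫ t, h (t - p.1) * B (Fin.cons t p.2 : Fin (m + 1) → ℝ)) ∧
    HasCompactSupport
      (fun p : ℝ × (Fin m → ℝ) => ∫ t, h (t - p.1) * B (Fin.cons t p.2 : Fin (m + 1) → ℝ)) := by
  refine par volume (fun (p : ℝ × (Fin m → ℝ)) (t : ℝ) =>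
    h (t - p.1) * B (Fin.cons t p.2 : Fin (m + 1) → ℝ)) ?_ ?_
  · have h1 : Continuous fun p : (ℝ × (Fin m → ℝ)) × ℝ => h (p.2 - p.1.1) :=
      hc.comp (continuous_snd.sub (continuous_fst.comp continuous_fst))
    have h2 : Continuous fun p : (ℝ × (Fin m → ℝ)) × ℝ =>
        B (Fin.cons p.2 p.1.2 : Fin (m + 1) → ℝ) :=
      (c_cn hB).comp (Continuous.prodMk (continuous_snd.comp continuous_fst) continuous_snd)
    exact h1.mul h2
  · have hK : IsCompact (tsupport B ×ˢ Icc (-ℓ) ℓ) := hBc.isCompact.prod isCompact_Icc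
    have hφ : Continuous fun p : (Fin (m + 1) → ℝ) × ℝ =>
        (((p.1 0 - p.2, Fin.tail p.1), p.1 0) : (ℝ × (Fin m → ℝ)) × ℝ) := by
      refine Continuous.prodMk (Continuous.prodMk (((continuous_apply 0).comp
        continuous_fst).sub continuous_snd) ?_) ((continuous_apply 0).comp continuous_fst)
      exact continuous_pi fun i => (continuous_apply _).comp continuous_fst
    refine HasCompactSupport.intro (hK.image hφ) fun p hp => ?_
    obtain ⟨⟨x, y⟩, t⟩ := p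
    show h (t - x) * B (Fin.cons t y : Fin (m + 1) → ℝ) = 0
    by_cases h1 : (Fin.cons t y : Fin (m + 1) → ℝ) ∈ tsupport B
    · have h3 : ℓ ≤ |t - x| := by
        by_contra h4
        rw [not_le, abs_lt] at h4
        refine hp ⟨((Fin.cons t y : Fin (m + 1) → ℝ), t - x),
          ⟨h1, ⟨by linarith [h4.1], by linarith [h4.2]⟩⟩, ?_⟩
        simp
      rw [h0 _ h3, zero_mul]
    · rw [image_eq_zero_of_notMem_tsupport h1, mul_zero]

theorem rpow_cs {X : Type*} [TopologicalSpace X] {F : X → ℝ} {q : ℝ} (hq : 0 < q)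
    (hF : HasCompactSupport F) : HasCompactSupport fun x => F x ^ q :=
  hF.comp_left (g := fun r : ℝ => r ^ q) (Real.zero_rpow hq.ne')

theorem den_cont {d n : ℕ} {f : Fin n → (Fin d → ℝ) → ℝ} (hf : ∀ i, Continuous (f i)) :
    Continuous (den f) := by
  unfold den
  fun_prop

theorem den_cs {d n : ℕ} {f : Fin n → (Fin d → ℝ) → ℝ} (hc : ∀ i, HasCompactSupport (f i)) :
    HasCompactSupport (den f) :=
  cs_sum _ fun i _ => cs_sq (hc i)

theorem den_nonneg {d n : ℕ} (f : Fin n → (Fin d → ℝ) → ℝ) (x : Fin d → ℝ) : 0 ≤ den f x :=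
  Finset.sum_nonneg fun _ _ => sq_nonneg _

/-- The limit `K → ∞`. -/
theorem A0_slice (hP : S_PAR) (hB : S_BCO) (hS : S_SLC) {ℓ η x : ℝ} (hℓ : 0 < ℓ) (hη : 0 < η)
    (hη1 : η < 1) {g : ℝ → ℝ} (hg : ContDiff ℝ 1 g) (hg0 : ∀ t, ℓ ≤ |t| → g t = 0)
    (hg1 : ∫ t, g t ^ 2 = 1) {m n : ℕ} (f : Fin n → (Fin (m + 1) → ℝ) → ℝ)
    (hf : ∀ i, ContDiff ℝ 1 (f i)) (hc : ∀ i, HasCompactSupport (f i)) (hG : Gram1 f) :
    (1 - η) ^ (1 / ((m:ℝ) + 1)) * LTd.Kcl (m + 1) *
      (∫ y : Fin m → ℝ, (∫ t, g (t - x) ^ 2 *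
        den f (Fin.cons t y : Fin (m + 1) → ℝ)) ^ (1 + 2 / ((m:ℝ) + 1))) ≤
    (∫ y : Fin m → ℝ, ∑ i, ∫ t, (g (t - x) ^ 2 *
      (∑ k : Fin m, LTd.pd k.succ (f i) (Fin.cons t y : Fin (m + 1) → ℝ) ^ 2))) +
    (∫ y : Fin m → ℝ, ∑ i, ∫ t, deriv (bsl g x (f i) y) t ^ 2) +
    3 * π ^ 2 / (16 * η * ℓ ^ 2) * ∫ y : Fin m → ℝ, ∑ i, ∫ t, bsl g x (f i) y t ^ 2 := by
  have hq : 0 < 1 + 2 / ((m:ℝ) + 1) := by positivity
  have hgc : Continuous g := hg.continuous
  have hgx : Continuous fun z : Fin (m + 1) → ℝ => g (z 0 - x) := by fun_prop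
  rw [← hB m η hη hη1]
  -- the partial sums
  set PK : ℕ → (Fin m → ℝ) → ℝ := fun K y => ∑ i, ∑ k ∈ Finset.Icc (-(K:ℤ)) K,
    (L7h99.SC.cc ℓ k (bsl g x (f i) y) ^ 2 + ss ℓ k (bsl g x (f i) y) ^ 2) / (2 * ℓ) with hPK
  set P : (Fin m → ℝ) → ℝ := fun y => ∫ t, g (t - x) ^ 2 *
        den f (Fin.cons t y : Fin (m + 1) → ℝ) with hPd
  have hbs : ∀ i y, HasSum (fun k : ℤ => (L7h99.SC.cc ℓ k (bsl g x (f i) y) ^ 2 +
      ss ℓ k (bsl g x (f i) y) ^ 2) / (2 * ℓ)) (∫ t, bsl g x (f i) y t ^ 2) := fun i y =>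
    (hP ℓ x hℓ (bsl g x (f i) y) (bsl_cont hgc x (hf i).continuous y) (bsl_zero hg0 (f i) y)).1
  have hPs : ∀ y, P y = ∑ i, ∫ t, bsl g x (f i) y t ^ 2 := by
    intro y
    rw [← integral_finsetSum]
    · refine integral_congr_ae (Eventually.of_forall fun t => ?_)
      simp only [bsl, den, mul_pow, Finset.mul_sum]
    · intro i _
      refine Continuous.integrable_of_hasCompactSupport
        ((bsl_cont hgc x (hf i).continuous y).pow 2) ?_
      exact cs_sq (tsl_cs (hc i) y).mul_left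
  have hlim : ∀ y, Tendsto (fun K : ℕ => PK K y) atTop (𝓝 (P y)) := by
    intro y
    rw [hPs]
    refine tendsto_finsetSum _ fun i _ => ?_
    exact (hbs i y).comp (Finset.tendsto_Icc_neg (R := ℤ))
  have hPK0 : ∀ K y, 0 ≤ PK K y := fun K y =>
    Finset.sum_nonneg fun i _ => Finset.sum_nonneg fun k _ => by positivity
  have hPKle : ∀ K y, PK K y ≤ P y := by
    intro K y
    rw [hPs]
    exact Finset.sum_le_sum fun i _ => sum_le_hasSum _ (fun k _ => by positivity) (hbs i y)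
  have hPKc : ∀ K, Continuous (PK K) := by
    intro K
    refine continuous_finsetSum _ fun i _ => continuous_finsetSum _ fun k _ => ?_
    simp only [← WW_sq hℓ]
    exact ((WW_cont hg x ℓ k true (hf i).continuous (hc i)).1.pow 2).add
      ((WW_cont hg x ℓ k false (hf i).continuous (hc i)).1.pow 2)
  have hPc := tsl (m := m) (F := fun z => g (z 0 - x) ^ 2 * den f z)
    ((hgx.pow 2).mul (den_cont fun i => (hf i).continuous)) ((den_cs hc).mul_left)
  have hPi : Integrable (fun y => P y ^ (1 + 2 / ((m:ℝ) + 1))) := by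
    refine Continuous.integrable_of_hasCompactSupport ?_ (rpow_cs hq hPc.2)
    exact hPc.1.rpow_const fun y => Or.inr hq.le
  have hT : Tendsto (fun K : ℕ => ∫ y, PK K y ^ (1 + 2 / ((m:ℝ) + 1))) atTop
      (𝓝 (∫ y, P y ^ (1 + 2 / ((m:ℝ) + 1)))) := by
    refine tendsto_integral_of_dominated_convergence _ (fun K => ?_) hPi (fun K => ?_) ?_
    · exact ((hPKc K).rpow_const fun y => Or.inr hq.le).aestronglyMeasurable
    · refine Eventually.of_forall fun y => ?_
      rw [Real.norm_eq_abs, abs_of_nonneg (Real.rpow_nonneg (hPK0 K y) _)]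
      exact Real.rpow_le_rpow (hPK0 K y) (hPKle K y) hq.le
    · exact Eventually.of_forall fun y => (hlim y).rpow_const (Or.inr hq.le)
  refine le_of_tendsto' (hT.const_mul _) fun K => ?_
  exact hS ℓ η x hℓ hη hη1 g hg hg0 hg1 m n f hf hc hG K

/-- The right-hand side as integrals over `z`. -/
theorem A0_rhs {ℓ C x : ℝ} {g : ℝ → ℝ} (hg : ContDiff ℝ 1 g) (hg0 : ∀ t, ℓ ≤ |t| → g t = 0)
    {m n : ℕ} (f : Fin n → (Fin (m + 1) → ℝ) → ℝ)
    (hf : ∀ i, ContDiff ℝ 1 (f i)) (hc : ∀ i, HasCompactSupport (f i)) :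
    (∫ y : Fin m → ℝ, ∑ i, ∫ t, (g (t - x) ^ 2 *
      (∑ k : Fin m, LTd.pd k.succ (f i) (Fin.cons t y : Fin (m + 1) → ℝ) ^ 2))) +
    (∫ y : Fin m → ℝ, ∑ i, ∫ t, deriv (bsl g x (f i) y) t ^ 2) +
    C * ∫ y : Fin m → ℝ, ∑ i, ∫ t, bsl g x (f i) y t ^ 2 =
    (∫ z, g (z 0 - x) ^ 2 * ((∑ k, ∑ i, LTd.pd k (f i) z ^ 2) + C * den f z)) +
    (∫ z, deriv g (z 0 - x) ^ 2 * den f z) +
    ∫ z, (deriv g (z 0 - x) * g (z 0 - x)) * (2 * ∑ i, f i z * LTd.pd 0 (f i) z) := by
  have hgc : Continuous g := hg.continuous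
  have hdg : Continuous (deriv g) := hg.continuous_deriv (by norm_num)
  have hgx : Continuous fun z : Fin (m + 1) → ℝ => g (z 0 - x) := by fun_prop
  have hdgx : Continuous fun z : Fin (m + 1) → ℝ => deriv g (z 0 - x) := by fun_prop
  have hpdc : ∀ i (j : Fin (m + 1)), Continuous (pd j (f i)) := fun i j =>
    (pd_basic (hf i) (hc i) j).1
  have hpds : ∀ i (j : Fin (m + 1)), HasCompactSupport (pd j (f i)) := fun i j =>
    (pd_basic (hf i) (hc i) j).2
  have hfc : ∀ i, Continuous (f i) := fun i => (hf i).continuous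
  -- conversion of the double integrals
  have conv : ∀ (F : Fin n → (Fin (m + 1) → ℝ) → ℝ) (hF : ∀ i, Continuous (F i))
      (hFc : ∀ i, HasCompactSupport (F i)),
      (∫ y : Fin m → ℝ, ∑ i, ∫ t, F i (Fin.cons t y : Fin (m + 1) → ℝ)) = ∫ z, ∑ i, F i z := by
    intro F hF hFc
    rw [integral_finsetSum _ fun i _ =>
      (tsl (hF i) (hFc i)).1.integrable_of_hasCompactSupport (tsl (hF i) (hFc i)).2,
      integral_finsetSum _ fun i _ => (hF i).integrable_of_hasCompactSupport (hFc i)]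
    exact Finset.sum_congr rfl fun i _ => (tsl_int (hF i) (hFc i)).symm
  have cA : ∀ i, Continuous fun z : Fin (m + 1) → ℝ => g (z 0 - x) ^ 2 *
      ∑ k : Fin m, pd k.succ (f i) z ^ 2 := fun i =>
    (hgx.pow 2).mul (continuous_finsetSum _ fun k _ => (hpdc i _).pow 2)
  have sA : ∀ i, HasCompactSupport fun z : Fin (m + 1) → ℝ => g (z 0 - x) ^ 2 *
      ∑ k : Fin m, pd k.succ (f i) z ^ 2 := fun i =>
    (cs_sum Finset.univ fun k _ => cs_sq (hpds i _)).mul_left
  have cB : ∀ i, Continuous fun z : Fin (m + 1) → ℝ => (deriv g (z 0 - x) * f i z +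
      g (z 0 - x) * pd 0 (f i) z) ^ 2 := fun i =>
    ((hdgx.mul (hfc i)).add (hgx.mul (hpdc i 0))).pow 2
  have sB : ∀ i, HasCompactSupport fun z : Fin (m + 1) → ℝ => (deriv g (z 0 - x) * f i z +
      g (z 0 - x) * pd 0 (f i) z) ^ 2 := fun i =>
    cs_sq (((hc i).mul_left).add ((hpds i 0).mul_left))
  have cC : ∀ i, Continuous fun z : Fin (m + 1) → ℝ => (g (z 0 - x) * f i z) ^ 2 := fun i =>
    (hgx.mul (hfc i)).pow 2
  have sC : ∀ i, HasCompactSupport fun z : Fin (m + 1) → ℝ => (g (z 0 - x) * f i z) ^ 2 := fun i =>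
    cs_sq ((hc i).mul_left)
  have e1 := conv _ cA sA
  have e2 := conv _ cB sB
  have e3 := conv _ cC sC
  have e1' : (∫ y : Fin m → ℝ, ∑ i, ∫ t, (g (t - x) ^ 2 *
      (∑ k : Fin m, LTd.pd k.succ (f i) (Fin.cons t y : Fin (m + 1) → ℝ) ^ 2))) =
      ∫ z, ∑ i, g (z 0 - x) ^ 2 * ∑ k : Fin m, pd k.succ (f i) z ^ 2 := by
    rw [← e1]
    simp only [Fin.cons_zero]
  have e2' : (∫ y : Fin m → ℝ, ∑ i, ∫ t, deriv (bsl g x (f i) y) t ^ 2) =
      ∫ z, ∑ i, (deriv g (z 0 - x) * f i z + g (z 0 - x) * pd 0 (f i) z) ^ 2 := by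
    rw [← e2]
    simp only [Fin.cons_zero, (bsl_der hg x (hf _) _ _).deriv]
  have e3' : (∫ y : Fin m → ℝ, ∑ i, ∫ t, bsl g x (f i) y t ^ 2) =
      ∫ z, ∑ i, (g (z 0 - x) * f i z) ^ 2 := by
    rw [← e3]
    simp only [Fin.cons_zero, bsl]
  have iA : Integrable fun z => ∑ i, g (z 0 - x) ^ 2 * ∑ k : Fin m, pd k.succ (f i) z ^ 2 :=
    integrable_finsetSum _ fun i _ => (cA i).integrable_of_hasCompactSupport (sA i)
  have iB : Integrable fun z => ∑ i, (deriv g (z 0 - x) * f i z +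
      g (z 0 - x) * pd 0 (f i) z) ^ 2 :=
    integrable_finsetSum _ fun i _ => (cB i).integrable_of_hasCompactSupport (sB i)
  have iC : Integrable fun z => C * ∑ i, (g (z 0 - x) * f i z) ^ 2 :=
    (integrable_finsetSum _ fun i _ => (cC i).integrable_of_hasCompactSupport (sC i)).const_mul C
  have i1 : Integrable fun z => g (z 0 - x) ^ 2 * ((∑ k, ∑ i, LTd.pd k (f i) z ^ 2) + C * den f z) := by
    refine Continuous.integrable_of_hasCompactSupport ?_ ?_
    · exact (hgx.pow 2).mul ((continuous_finsetSum _ fun k _ => continuous_finsetSum _ fun i _ =>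
        (hpdc i k).pow 2).add (continuous_const.mul (den_cont hfc)))
    · exact ((cs_sum _ fun k _ => cs_sum _ fun i _ => cs_sq (hpds i k)).add
        ((den_cs hc).mul_left)).mul_left
  have i2 : Integrable fun z => deriv g (z 0 - x) ^ 2 * den f z :=
    ((hdgx.pow 2).mul (den_cont hfc)).integrable_of_hasCompactSupport (den_cs hc).mul_left
  have i3 : Integrable fun z =>
      (deriv g (z 0 - x) * g (z 0 - x)) * (2 * ∑ i, f i z * LTd.pd 0 (f i) z) := by
    refine Continuous.integrable_of_hasCompactSupport ?_ ?_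
    · exact (hdgx.mul hgx).mul (continuous_const.mul (continuous_finsetSum _ fun i _ =>
        (hfc i).mul (hpdc i 0)))
    · exact ((cs_sum _ fun i _ => (hc i).mul_right).mul_left).mul_left
  have iAB : Integrable fun z => (∑ i, g (z 0 - x) ^ 2 * ∑ k : Fin m, pd k.succ (f i) z ^ 2) +
      ∑ i, (deriv g (z 0 - x) * f i z + g (z 0 - x) * pd 0 (f i) z) ^ 2 := iA.add iB
  have i12 : Integrable fun z => g (z 0 - x) ^ 2 * ((∑ k, ∑ i, LTd.pd k (f i) z ^ 2) +
      C * den f z) + deriv g (z 0 - x) ^ 2 * den f z := i1.add i2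
  rw [e1', e2', e3', ← integral_const_mul, ← integral_add iA iB, ← integral_add iAB iC,
    ← integral_add i1 i2, ← integral_add i12 i3]
  refine integral_congr_ae (Eventually.of_forall fun z => ?_)
  dsimp only
  rw [Fin.sum_univ_succ]
  have s1 : ∑ i, g (z 0 - x) ^ 2 * ∑ k : Fin m, pd k.succ (f i) z ^ 2 =
      g (z 0 - x) ^ 2 * ∑ k : Fin m, ∑ i, pd k.succ (f i) z ^ 2 := by
    rw [← Finset.mul_sum, Finset.sum_comm]
  have s2 : ∑ i, (deriv g (z 0 - x) * f i z + g (z 0 - x) * pd 0 (f i) z) ^ 2 =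
      deriv g (z 0 - x) ^ 2 * den f z + g (z 0 - x) ^ 2 * ∑ i, pd 0 (f i) z ^ 2 +
      (deriv g (z 0 - x) * g (z 0 - x)) * (2 * ∑ i, f i z * pd 0 (f i) z) := by
    unfold den
    simp only [Finset.mul_sum]
    rw [← Finset.sum_add_distrib, ← Finset.sum_add_distrib]
    exact Finset.sum_congr rfl fun i _ => by ring
  have s3 : ∑ i, (g (z 0 - x) * f i z) ^ 2 = g (z 0 - x) ^ 2 * den f z := by
    unfold den
    simp only [Finset.mul_sum, mul_pow]
  rw [s1, s2, s3]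
  ring

theorem t_A0 (hP : S_PAR) (hB : S_BCO) (hS : S_SLC) : S_A0 := by
  intro ℓ η hℓ hη hη1 g hg hg0 hg1 m n f hf hc hG
  have hq : 0 < 1 + 2 / ((m:ℝ) + 1) := by positivity
  have hgc : Continuous g := hg.continuous
  have hdg : Continuous (deriv g) := hg.continuous_deriv (by norm_num)
  have hfc : ∀ i, Continuous (f i) := fun i => (hf i).continuous
  have hpdc : ∀ i (j : Fin (m + 1)), Continuous (pd j (f i)) := fun i j =>
    (pd_basic (hf i) (hc i) j).1
  have hpds : ∀ i (j : Fin (m + 1)), HasCompactSupport (pd j (f i)) := fun i j =>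
    (pd_basic (hf i) (hc i) j).2
  set C : ℝ := 3 * π ^ 2 / (16 * η * ℓ ^ 2) with hC
  -- `g'` vanishes outside
  have hdg0 : ∀ t, 2 * ℓ ≤ |t| → deriv g t = 0 := by
    intro t ht
    have h1 : g =ᶠ[𝓝 t] fun _ => 0 := by
      have h2 : ∀ᶠ s in 𝓝 t, ℓ < |s| := by
        have : ℓ < |t| := by linarith
        exact (continuous_abs.continuousAt.eventually_mem (Ioi_mem_nhds this))
      exact h2.mono fun s hs => hg0 s hs.le
    rw [h1.deriv_eq]
    simp
  have hgsq : Continuous fun t => g t ^ 2 := hgc.pow 2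
  have hdsq : Continuous fun t => deriv g t ^ 2 := hdg.pow 2
  have hmix : Continuous fun t => deriv g t * g t := hdg.mul hgc
  have cs_g : HasCompactSupport g :=
    HasCompactSupport.intro (isCompact_Icc (a := -ℓ) (b := ℓ)) fun t ht => hg0 t (by
      by_contra h4
      rw [not_le, abs_lt] at h4
      exact ht ⟨by linarith [h4.1], by linarith [h4.2]⟩)
  have hmix0 : ∫ t, deriv g t * g t = 0 := by
    have h1 : ∀ t, HasDerivAt (fun t => g t ^ 2) (2 * (deriv g t * g t)) t := by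
      intro t
      have h2 : HasDerivAt g (deriv g t) t := (hg.differentiable (by norm_num) t).hasDerivAt
      have h3 : HasDerivAt (fun t => g t ^ 2) _ t := h2.pow 2
      refine h3.congr_deriv ?_
      push_cast
      ring
    have h2 : ∫ t, 2 * (deriv g t * g t) = 0 := by
      refine integral_eq_zero_of_hasDerivAt_of_integrable h1 ?_ ?_
      · exact (hmix.integrable_of_hasCompactSupport (cs_g.mul_left)).const_mul _
      · exact hgsq.integrable_of_hasCompactSupport (cs_sq cs_g)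
    rw [integral_const_mul] at h2
    linarith
  -- the three integrals
  have B1c : Continuous fun z => (∑ k, ∑ i, LTd.pd k (f i) z ^ 2) + C * den f z :=
    (continuous_finsetSum _ fun k _ => continuous_finsetSum _ fun i _ =>
        (hpdc i k).pow 2).add (continuous_const.mul (den_cont hfc))
  have B1s : HasCompactSupport fun z => (∑ k, ∑ i, LTd.pd k (f i) z ^ 2) + C * den f z :=
    (cs_sum _ fun k _ => cs_sum _ fun i _ => cs_sq (hpds i k)).add ((den_cs hc).mul_left)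
  have B3c : Continuous fun z => 2 * ∑ i, f i z * LTd.pd 0 (f i) z :=
    continuous_const.mul (continuous_finsetSum _ fun i _ => (hfc i).mul (hpdc i 0))
  have B3s : HasCompactSupport fun z => 2 * ∑ i, f i z * LTd.pd 0 (f i) z :=
    (cs_sum _ fun i _ => (hc i).mul_right).mul_left
  obtain ⟨j1, j1'⟩ := J_int (m := m) (ℓ := ℓ) hgsq (fun t ht => by rw [hg0 t ht]; norm_num) B1c B1s
  obtain ⟨j2, j2'⟩ := J_int (m := m) (ℓ := 2 * ℓ) hdsq (fun t ht => by rw [hdg0 t ht]; norm_num)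
    (den_cont hfc) (den_cs hc)
  obtain ⟨j3, j3'⟩ := J_int (m := m) (ℓ := ℓ) hmix (fun t ht => by rw [hg0 t ht, mul_zero]) B3c B3s
  have hPc := P_cont (m := m) (ℓ := ℓ) hgsq (fun t ht => by rw [hg0 t ht]; norm_num)
    (den_cont hfc) (den_cs hc)
  have hLc : Continuous (Function.uncurry fun (x : ℝ) (y : Fin m → ℝ) => (∫ t, g (t - x) ^ 2 *
        den f (Fin.cons t y : Fin (m + 1) → ℝ)) ^ (1 + 2 / ((m:ℝ) + 1))) :=
    hPc.1.rpow_const fun y => Or.inr hq.le
  have hLs : HasCompactSupport (Function.uncurry fun (x : ℝ) (y : Fin m → ℝ) =>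
      (∫ t, g (t - x) ^ 2 * den f (Fin.cons t y : Fin (m + 1) → ℝ)) ^ (1 + 2 / ((m:ℝ) + 1))) :=
    rpow_cs hq hPc.2
  have hL := par volume (fun (x : ℝ) (y : Fin m → ℝ) => (∫ t, g (t - x) ^ 2 *
        den f (Fin.cons t y : Fin (m + 1) → ℝ)) ^ (1 + 2 / ((m:ℝ) + 1))) hLc hLs
  have hLi := hL.1.integrable_of_hasCompactSupport (μ := volume) hL.2
  rw [← integral_const_mul]
  have key : ∀ x, (1 - η) ^ (1 / ((m:ℝ) + 1)) * LTd.Kcl (m + 1) *
      (∫ y : Fin m → ℝ, (∫ t, g (t - x) ^ 2 *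
        den f (Fin.cons t y : Fin (m + 1) → ℝ)) ^ (1 + 2 / ((m:ℝ) + 1))) ≤
      (∫ z, g (z 0 - x) ^ 2 * ((∑ k, ∑ i, LTd.pd k (f i) z ^ 2) + C * den f z)) +
      (∫ z, deriv g (z 0 - x) ^ 2 * den f z) +
      ∫ z, (deriv g (z 0 - x) * g (z 0 - x)) * (2 * ∑ i, f i z * LTd.pd 0 (f i) z) := by
    intro x
    rw [← A0_rhs (C := C) hg hg0 f hf hc]
    exact A0_slice hP hB hS hℓ hη hη1 hg hg0 hg1 f hf hc hG
  have j12 : Integrable fun x : ℝ => (∫ z, g (z 0 - x) ^ 2 * ((∑ k, ∑ i, LTd.pd k (f i) z ^ 2) +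
      C * den f z)) + ∫ z, deriv g (z 0 - x) ^ 2 * den f z := j1.add j2
  have j123 : Integrable fun x : ℝ => (∫ z, g (z 0 - x) ^ 2 * ((∑ k, ∑ i, LTd.pd k (f i) z ^ 2) +
      C * den f z)) + (∫ z, deriv g (z 0 - x) ^ 2 * den f z) +
      ∫ z, (deriv g (z 0 - x) * g (z 0 - x)) * (2 * ∑ i, f i z * LTd.pd 0 (f i) z) := j12.add j3
  refine (integral_mono (hLi.const_mul _) j123 key).trans (le_of_eq ?_)
  rw [integral_add j12 j3, integral_add j1 j2, j1', j2', j3', hg1, hmix0, one_mul, zero_mul,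
    add_zero]
  rw [integral_add]
  · rw [integral_const_mul]
    unfold kin
    ring
  · exact (continuous_finsetSum _ fun k _ => continuous_finsetSum _ fun i _ =>
        (hpdc i k).pow 2).integrable_of_hasCompactSupport
        (cs_sum _ fun k _ => cs_sum _ fun i _ => cs_sq (hpds i k))
  · exact ((den_cont hfc).integrable_of_hasCompactSupport (den_cs hc)).const_mul _

end Pool.Agent.L7h96.SC
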