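import Pool.Agent.L7h99.SC.Stm
import Pool.Agent.Helper717.LT.P_slice_cont
import Pool.Agent.Helper717.LT.P_slice_int
import Pool.Agent.Helper717.LT.P_slice_pd
import Pool.Agent.Helper717.LT.P_pd_basic
import Pool.Agent.Helper717.LT.P_T_slice
import Pool.Agent.Helper717.LT.P_T_all
import Pool.Agent.Helper717.LT.P_specP

set_option autoImplicit false

/-!
# Integrals over the first coordinate
-/

open MeasureTheory Set Filter Topology Real
open scoped ENNReal Matrix

namespace Pool.Agent.L7h96.SC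

open Pool.Agent.L7h99.SC LTd

/-- Integrals with a parameter of a compactly supported function. -/
theorem par {X Y E : Type*} [MetricSpace X] [MetricSpace Y] [MeasurableSpace Y]
    [OpensMeasurableSpace Y]
    [NormedAddCommGroup E] [NormedSpace ℝ E] [SecondCountableTopologyEither Y E] (μ : Measure Y) [IsFiniteMeasureOnCompacts μ]
    (F : X → Y → E) (hF : Continuous (Function.uncurry F))
    (hc : HasCompactSupport (Function.uncurry F)) :
    Continuous (fun x => ∫ y, F x y ∂μ) ∧ HasCompactSupport (fun x => ∫ y, F x y ∂μ) := by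
  have hk : IsCompact (Prod.snd '' tsupport (Function.uncurry F)) :=
    hc.isCompact.image continuous_snd
  have hk' : IsCompact (Prod.fst '' tsupport (Function.uncurry F)) :=
    hc.isCompact.image continuous_fst
  have h0 : ∀ x y, (x, y) ∉ tsupport (Function.uncurry F) → F x y = 0 := fun x y h =>
    image_eq_zero_of_notMem_tsupport (f := Function.uncurry F) (x := (x, y)) h
  constructor
  · rw [← continuousOn_univ]
    refine continuousOn_integral_of_compact_support hk (by rw [univ_prod_univ]; exact hF.continuousOn)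
      fun x y _ hy => h0 x y fun h => hy ⟨(x, y), h, rfl⟩
  · refine HasCompactSupport.intro hk' fun x hx => ?_
    have : ∀ y, F x y = 0 := fun y => h0 x y fun h => hx ⟨(x, y), h, rfl⟩
    simp [this]

theorem cont_cn {m : ℕ} :
    Continuous fun p : ℝ × (Fin m → ℝ) => (Fin.cons p.1 p.2 : Fin (m + 1) → ℝ) := by
  refine continuous_pi fun i => ?_
  refine Fin.cases ?_ (fun j => ?_) i
  · exact continuous_fst
  · exact (continuous_apply j).comp continuous_snd

/-- The homeomorphism `(y, t) ↦ cons t y`. -/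
def hcn (m : ℕ) : ((Fin m → ℝ) × ℝ) ≃ₜ (Fin (m + 1) → ℝ) where
  toFun p := Fin.cons p.2 p.1
  invFun z := (Fin.tail z, z 0)
  left_inv p := by simp
  right_inv z := by simp
  continuous_toFun := cont_cn.comp continuous_swap
  continuous_invFun := by
    refine Continuous.prodMk ?_ (continuous_apply 0)
    exact continuous_pi fun i => continuous_apply _

theorem cs_cn {m : ℕ} {E : Type*} [Zero E] {F : (Fin (m + 1) → ℝ) → E}
    (hc : HasCompactSupport F) :
    HasCompactSupport (Function.uncurry fun (y : Fin m → ℝ) (t : ℝ) =>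
      F (Fin.cons t y : Fin (m + 1) → ℝ)) :=
  hc.comp_homeomorph (hcn m)

theorem c_cn {m : ℕ} {E : Type*} [TopologicalSpace E] {F : (Fin (m + 1) → ℝ) → E}
    (hF : Continuous F) :
    Continuous (Function.uncurry fun (y : Fin m → ℝ) (t : ℝ) =>
      F (Fin.cons t y : Fin (m + 1) → ℝ)) :=
  hF.comp (hcn m).continuous

theorem tsl {m : ℕ} {F : (Fin (m + 1) → ℝ) → ℝ} (hF : Continuous F) (hc : HasCompactSupport F) :
    Continuous (fun y : Fin m → ℝ => ∫ t, F (Fin.cons t y : Fin (m + 1) → ℝ)) ∧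
    HasCompactSupport (fun y : Fin m → ℝ => ∫ t, F (Fin.cons t y : Fin (m + 1) → ℝ)) :=
  par volume (fun (y : Fin m → ℝ) (t : ℝ) => F (Fin.cons t y : Fin (m + 1) → ℝ)) (c_cn hF) (cs_cn hc)

theorem tsl_c {m : ℕ} {F : (Fin (m + 1) → ℝ) → ℝ} (hF : Continuous F) (y : Fin m → ℝ) :
    Continuous (fun t : ℝ => F (Fin.cons t y : Fin (m + 1) → ℝ)) :=
  (c_cn hF).comp (Continuous.prodMk_right y)

theorem tsl_cs {m : ℕ} {F : (Fin (m + 1) → ℝ) → ℝ} (hc : HasCompactSupport F) (y : Fin m → ℝ) :
    HasCompactSupport (fun t : ℝ => F (Fin.cons t y : Fin (m + 1) → ℝ)) := by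
  have h := cs_cn hc
  refine HasCompactSupport.intro (h.isCompact.image continuous_snd) fun t ht => ?_
  exact image_eq_zero_of_notMem_tsupport (f := Function.uncurry fun (y : Fin m → ℝ) (t : ℝ) =>
      F (Fin.cons t y : Fin (m + 1) → ℝ)) (x := (y, t)) fun h => ht ⟨(y, t), h, rfl⟩

theorem tsl_int {m : ℕ} {F : (Fin (m + 1) → ℝ) → ℝ} (hF : Continuous F)
    (hc : HasCompactSupport F) :
    ∫ z, F z = ∫ y : Fin m → ℝ, ∫ t : ℝ, F (Fin.cons t y : Fin (m + 1) → ℝ) := by
  rw [slice_int hF hc]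
  have h1 := c_cn hF
  have h2 := cs_cn hc
  rw [integral_integral_swap_of_hasCompactSupport h1 h2]

theorem tsl_i {m : ℕ} {F : (Fin (m + 1) → ℝ) → ℝ} (hF : Continuous F)
    (hc : HasCompactSupport F) (y : Fin m → ℝ) :
    Integrable (fun t : ℝ => F (Fin.cons t y : Fin (m + 1) → ℝ)) :=
  (tsl_c hF y).integrable_of_hasCompactSupport (tsl_cs hc y)

theorem tsl_C1 {m : ℕ} {F : (Fin (m + 1) → ℝ) → ℝ} (hF : ContDiff ℝ 1 F)
    (hc : HasCompactSupport F) :
    ContDiff ℝ 1 (fun y : Fin m → ℝ => ∫ t, F (Fin.cons t y : Fin (m + 1) → ℝ)) ∧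
    ∀ (k : Fin m) (y : Fin m → ℝ),
      pd k (fun y : Fin m → ℝ => ∫ t, F (Fin.cons t y : Fin (m + 1) → ℝ)) y =
        ∫ t, pd k.succ F (Fin.cons t y : Fin (m + 1) → ℝ) := by
  set D : (Fin m → ℝ) → ℝ → ((Fin m → ℝ) →L[ℝ] ℝ) := fun y t =>
    (fderiv ℝ F (Fin.cons t y : Fin (m + 1) → ℝ)).comp (spL m) with hD
  have hfc : Continuous (fderiv ℝ F) := hF.continuous_fderiv (by norm_num)
  have hfs : HasCompactSupport (fderiv ℝ F) := hc.fderiv (𝕜 := ℝ)
  have hG : Continuous fun z => (fderiv ℝ F z).comp (spL m) := hfc.clm_comp continuous_const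
  have hGs : HasCompactSupport fun z => (fderiv ℝ F z).comp (spL m) :=
    hfs.comp_left (g := fun L : (Fin (m + 1) → ℝ) →L[ℝ] ℝ => L.comp (spL m)) (by simp)
  have hDc : Continuous (Function.uncurry D) := c_cn hG
  have hDs : HasCompactSupport (Function.uncurry D) := cs_cn hGs
  obtain ⟨h1, h2⟩ := par volume D hDc hDs
  obtain ⟨C, hC⟩ := hDs.exists_bound_of_continuous hDc
  have hK : IsCompact (Prod.snd '' tsupport (Function.uncurry D)) :=
    hDs.isCompact.image continuous_snd
  have h0 : ∀ y t, t ∉ Prod.snd '' tsupport (Function.uncurry D) → D y t = 0 := fun y t h =>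
    image_eq_zero_of_notMem_tsupport (f := Function.uncurry D) (x := (y, t)) fun h' =>
      h ⟨(y, t), h', rfl⟩
  have hder : ∀ (t : ℝ) (y : Fin m → ℝ), HasFDerivAt (fun y : Fin m → ℝ =>
      F (Fin.cons t y : Fin (m + 1) → ℝ)) (D y t) y := by
    intro t y
    have hd : DifferentiableAt ℝ F (Fin.cons t y : Fin (m + 1) → ℝ) :=
      (hF.differentiable (by norm_num)).differentiableAt
    exact hd.hasFDerivAt.comp y (spL_hasFDerivAt t y)
  have hDi : ∀ y, Integrable (D y) := fun y => by
    refine (hDc.comp (Continuous.prodMk_right y)).integrable_of_hasCompactSupport ?_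
    exact HasCompactSupport.intro hK fun t ht => h0 y t ht
  have key : ∀ y, HasFDerivAt (fun y : Fin m → ℝ => ∫ t, F (Fin.cons t y : Fin (m + 1) → ℝ))
      (∫ t, D y t) y := by
    intro y
    refine hasFDerivAt_integral_of_dominated_of_fderiv_le (F' := fun y t => D y t)
      (bound := (Prod.snd '' tsupport (Function.uncurry D)).indicator fun _ => C)
      (s := univ) Filter.univ_mem
      (Filter.Eventually.of_forall fun y => (tsl_c hF.continuous y).aestronglyMeasurable)
      (tsl_i hF.continuous hc y)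
      (hDc.comp (Continuous.prodMk_right y)).aestronglyMeasurable
      (Filter.Eventually.of_forall fun t y _ => ?_) ?_
      (Filter.Eventually.of_forall fun t y _ => hder t y)
    · by_cases ht : t ∈ Prod.snd '' tsupport (Function.uncurry D)
      · rw [Set.indicator_of_mem ht]
        exact hC (y, t)
      · rw [Set.indicator_of_notMem ht, h0 y t ht, norm_zero]
    · rw [integrable_indicator_iff hK.measurableSet]
      exact integrableOn_const hK.measure_lt_top.ne
  constructor
  · rw [contDiff_one_iff_fderiv]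
    refine ⟨fun y => (key y).differentiableAt, ?_⟩
    have : fderiv ℝ (fun y : Fin m → ℝ => ∫ t, F (Fin.cons t y : Fin (m + 1) → ℝ)) =
        fun y => ∫ t, D y t := by
      funext y
      exact (key y).fderiv
    rw [this]
    exact h1
  · intro k y
    rw [pd, (key y).fderiv, ContinuousLinearMap.integral_apply (hDi y)]
    refine integral_congr_ae (Eventually.of_forall fun t => ?_)
    show (fderiv ℝ F (Fin.cons t y : Fin (m + 1) → ℝ)) (spL m (Pi.single k 1)) = _
    rw [spL_single]
    rfl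

theorem fd0 {m : ℕ} {h : ℝ → ℝ} (hh : ContDiff ℝ 1 h) (z : Fin (m + 1) → ℝ) :
    HasFDerivAt (fun z : Fin (m + 1) → ℝ => h (z 0))
      (deriv h (z 0) • (ContinuousLinearMap.proj 0 : (Fin (m + 1) → ℝ) →L[ℝ] ℝ)) z := by
  have h1 : HasDerivAt h (deriv h (z 0)) (z 0) :=
    (hh.differentiable (by norm_num) (z 0)).hasDerivAt
  exact h1.comp_hasFDerivAt z (hasFDerivAt_apply 0 z)

theorem pd_mul0 {m : ℕ} {h : ℝ → ℝ} (hh : ContDiff ℝ 1 h) {F : (Fin (m + 1) → ℝ) → ℝ}
    (hF : ContDiff ℝ 1 F) (k : Fin (m + 1)) (z : Fin (m + 1) → ℝ) :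
    pd k (fun z => h (z 0) * F z) z =
      h (z 0) * pd k F z + (if k = 0 then deriv h (z 0) else 0) * F z := by
  have h1 : HasFDerivAt (fun z => h (z 0) * F z) _ z :=
    (fd0 hh z).mul (hF.differentiable (by norm_num) z).hasFDerivAt
  unfold pd
  rw [h1.fderiv]
  simp only [add_apply, smul_apply, smul_eq_mul, ContinuousLinearMap.proj_apply, Pi.single_apply]
  by_cases hk : k = 0
  · subst hk
    simp
    ring
  · rw [if_neg hk, if_neg (Ne.symm hk)]
    ring

theorem C1_mul0 {m : ℕ} {h : ℝ → ℝ} (hh : ContDiff ℝ 1 h) {F : (Fin (m + 1) → ℝ) → ℝ}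
    (hF : ContDiff ℝ 1 F) : ContDiff ℝ 1 (fun z => h (z 0) * F z) :=
  (hh.comp (contDiff_apply ℝ ℝ 0)).mul hF

end Pool.Agent.L7h96.SC
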