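import Pool.Agent.L7h96.SC.Base

set_option autoImplicit false

/-!
# Slicing
-/

open MeasureTheory Set Filter Topology Real
open scoped ENNReal Matrix

namespace Pool.Agent.L7h96.SC

open Pool.Agent.L7h99.SC
open LTd hiding cc

theorem cs_sq {X : Type*} [TopologicalSpace X] {F : X → ℝ} (hF : HasCompactSupport F) :
    HasCompactSupport fun x => F x ^ 2 :=
  hF.comp_left (g := fun r : ℝ => r ^ 2) (by norm_num)

/-- Bessel's inequality. -/
theorem bessel {d n : ℕ} (f : Fin n → (Fin d → ℝ) → ℝ) (hf : ∀ i, Continuous (f i))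
    (hc : ∀ i, HasCompactSupport (f i)) (hG : Gram1 f) (φ : (Fin d → ℝ) → ℝ) (hφ : Continuous φ)
    (hφc : HasCompactSupport φ) : ∑ i, (∫ x, f i x * φ x) ^ 2 ≤ ∫ x, φ x ^ 2 := by
  set v : Fin n → ℝ := fun i => ∫ x, f i x * φ x with hv
  have i1 : ∀ i, Integrable (fun x => f i x * φ x) := fun i =>
    ((hf i).mul hφ).integrable_of_hasCompactSupport ((hc i).mul_right)
  have i2 : Integrable (fun x => φ x ^ 2) :=
    (hφ.pow 2).integrable_of_hasCompactSupport (cs_sq hφc)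
  have i3 : Integrable (fun x => (∑ i, v i * f i x) ^ 2) := by
    refine Continuous.integrable_of_hasCompactSupport (by fun_prop) ?_
    refine HasCompactSupport.intro (K := ⋃ j, tsupport (f j)) (isCompact_iUnion fun j => hc j)
      fun x hx => ?_
    rw [Set.mem_iUnion, not_exists] at hx
    rw [Finset.sum_eq_zero, sq, mul_zero]
    intro j _
    rw [image_eq_zero_of_notMem_tsupport (hx j), mul_zero]
  have h0 : 0 ≤ ∫ x, (φ x - ∑ i, v i * f i x) ^ 2 := integral_nonneg fun x => sq_nonneg _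
  have h1 : ∀ x, (φ x - ∑ i, v i * f i x) ^ 2 =
      φ x ^ 2 - 2 * (∑ i, v i * (f i x * φ x)) + (∑ i, v i * f i x) ^ 2 := by
    intro x
    have : ∑ i, v i * (f i x * φ x) = (∑ i, v i * f i x) * φ x := by
      rw [Finset.sum_mul]
      exact Finset.sum_congr rfl fun i _ => by ring
    rw [this]
    ring
  have i4 : Integrable (fun x => 2 * (∑ i, v i * (f i x * φ x))) :=
    (integrable_finsetSum _ fun i _ => (i1 i).const_mul _).const_mul _
  have i5 : Integrable (fun x => φ x ^ 2 - 2 * (∑ i, v i * (f i x * φ x))) := i2.sub i4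
  rw [integral_congr_ae (Eventually.of_forall h1), integral_add i5 i3,
    integral_sub i2 i4, integral_const_mul, integral_finsetSum _ fun i _ => (i1 i).const_mul _] at h0
  have h2 : ∑ i, ∫ x, v i * (f i x * φ x) = ∑ i, v i ^ 2 := by
    refine Finset.sum_congr rfl fun i _ => ?_
    rw [integral_const_mul, sq]
  rw [h2] at h0
  have h3 := hG v
  linarith

/-- The trigonometric functions. -/
noncomputable def tg (ℓ : ℝ) (k : ℤ) (b : Bool) (t : ℝ) : ℝ :=
  if b then Real.sin (π * k / ℓ * t) else Real.cos (π * k / ℓ * t)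

theorem tg_C1 (ℓ : ℝ) (k : ℤ) (b : Bool) : ContDiff ℝ 1 (tg ℓ k b) := by
  unfold tg
  cases b
  · simp only [Bool.false_eq_true, if_false]
    exact Real.contDiff_cos.comp (contDiff_const.mul contDiff_id)
  · simp only [if_true]
    exact Real.contDiff_sin.comp (contDiff_const.mul contDiff_id)

/-- The weights. -/
noncomputable def hh (g : ℝ → ℝ) (x ℓ : ℝ) (k : ℤ) (b : Bool) (t : ℝ) : ℝ :=
  (√(2 * ℓ))⁻¹ * (g (t - x) * tg ℓ k b t)

theorem hh_C1 {g : ℝ → ℝ} (hg : ContDiff ℝ 1 g) (x ℓ : ℝ) (k : ℤ) (b : Bool) :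
    ContDiff ℝ 1 (hh g x ℓ k b) := by
  unfold hh
  exact contDiff_const.mul ((hg.comp (contDiff_id.sub contDiff_const)).mul (tg_C1 ℓ k b))

theorem hh_sq {g : ℝ → ℝ} {x ℓ : ℝ} (hℓ : 0 < ℓ) (k : ℤ) (t : ℝ) :
    hh g x ℓ k true t ^ 2 + hh g x ℓ k false t ^ 2 = 1 / (2 * ℓ) * g (t - x) ^ 2 := by
  unfold hh tg
  simp only [if_true, Bool.false_eq_true, if_false]
  have h1 : ((√(2 * ℓ))⁻¹) ^ 2 = 1 / (2 * ℓ) := by
    rw [inv_pow, Real.sq_sqrt (by positivity), one_div]
  have h2 := Real.sin_sq_add_cos_sq (π * k / ℓ * t)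
  rw [mul_pow, mul_pow, mul_pow, mul_pow, h1, ← mul_add, ← mul_add, h2, mul_one]

/-- The coefficients of the slices. -/
noncomputable def WW {m : ℕ} (g : ℝ → ℝ) (x ℓ : ℝ) (k : ℤ) (b : Bool)
    (F : (Fin (m + 1) → ℝ) → ℝ) (y : Fin m → ℝ) : ℝ :=
  ∫ t, hh g x ℓ k b t * F (Fin.cons t y : Fin (m + 1) → ℝ)

theorem WW_sq {m : ℕ} {g : ℝ → ℝ} {x ℓ : ℝ} (hℓ : 0 < ℓ) (k : ℤ)
    (F : (Fin (m + 1) → ℝ) → ℝ) (y : Fin m → ℝ) :
    WW g x ℓ k true F y ^ 2 + WW g x ℓ k false F y ^ 2 =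
      (cc ℓ k (bsl g x F y) ^ 2 + ss ℓ k (bsl g x F y) ^ 2) / (2 * ℓ) := by
  have h1 : ((√(2 * ℓ))⁻¹) ^ 2 = (2 * ℓ)⁻¹ := by
    rw [inv_pow, Real.sq_sqrt (by positivity)]
  have e1 : WW g x ℓ k true F y = (√(2 * ℓ))⁻¹ * ss ℓ k (bsl g x F y) := by
    unfold WW ss
    rw [← integral_const_mul]
    refine integral_congr_ae (Eventually.of_forall fun t => ?_)
    simp only [hh, tg, bsl, if_true]
    ring
  have e2 : WW g x ℓ k false F y = (√(2 * ℓ))⁻¹ * cc ℓ k (bsl g x F y) := by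
    unfold WW cc
    rw [← integral_const_mul]
    refine integral_congr_ae (Eventually.of_forall fun t => ?_)
    simp only [hh, tg, bsl, Bool.false_eq_true, if_false]
    ring
  rw [e1, e2, mul_pow, mul_pow, h1]
  ring

theorem WW_cont {m : ℕ} {g : ℝ → ℝ} (hg : ContDiff ℝ 1 g) (x ℓ : ℝ) (k : ℤ) (b : Bool)
    {F : (Fin (m + 1) → ℝ) → ℝ} (hF : Continuous F) (hc : HasCompactSupport F) :
    Continuous (WW g x ℓ k b F) ∧ HasCompactSupport (WW g x ℓ k b F) := by
  have h0 : Continuous fun z : Fin (m + 1) → ℝ => hh g x ℓ k b (z 0) * F z :=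
    ((hh_C1 hg x ℓ k b).continuous.comp (continuous_apply 0)).mul hF
  exact tsl h0 (hc.mul_left (f := fun z : Fin (m + 1) → ℝ => hh g x ℓ k b (z 0)))

theorem WW_C1 {m : ℕ} {g : ℝ → ℝ} (hg : ContDiff ℝ 1 g) (x ℓ : ℝ) (k : ℤ) (b : Bool)
    {F : (Fin (m + 1) → ℝ) → ℝ} (hF : ContDiff ℝ 1 F) (hc : HasCompactSupport F) :
    ContDiff ℝ 1 (WW g x ℓ k b F) ∧
    ∀ (j : Fin m) (y : Fin m → ℝ), pd j (WW g x ℓ k b F) y = WW g x ℓ k b (pd j.succ F) y := by
  have h0 := C1_mul0 (hh_C1 hg x ℓ k b) hF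
  have h1 := tsl_C1 h0 (hc.mul_left (f := fun z : Fin (m + 1) → ℝ => hh g x ℓ k b (z 0)))
  refine ⟨h1.1, fun j y => ?_⟩
  refine (h1.2 j y).trans ?_
  unfold WW
  refine integral_congr_ae (Eventually.of_forall fun t => ?_)
  show pd j.succ (fun z => hh g x ℓ k b (z 0) * F z) (Fin.cons t y : Fin (m + 1) → ℝ) = _
  rw [pd_mul0 (hh_C1 hg x ℓ k b) hF, if_neg (Fin.succ_ne_zero j), zero_mul, add_zero, Fin.cons_zero]

theorem bsl_cont {m : ℕ} {g : ℝ → ℝ} (hg : Continuous g) (x : ℝ)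
    {F : (Fin (m + 1) → ℝ) → ℝ} (hF : Continuous F) (y : Fin m → ℝ) :
    Continuous (bsl g x F y) := by
  unfold bsl
  exact (hg.comp (continuous_id.sub continuous_const)).mul (tsl_c hF y)

theorem bsl_zero {m : ℕ} {g : ℝ → ℝ} {x ℓ : ℝ} (hg0 : ∀ t, ℓ ≤ |t| → g t = 0)
    (F : (Fin (m + 1) → ℝ) → ℝ) (y : Fin m → ℝ) (t : ℝ) (ht : ℓ ≤ |t - x|) :
    bsl g x F y t = 0 := by
  unfold bsl
  rw [hg0 _ ht, zero_mul]

theorem hcns {m : ℕ} (y : Fin m → ℝ) (t : ℝ) :
    HasDerivAt (fun t : ℝ => (Fin.cons t y : Fin (m + 1) → ℝ))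
        (Pi.single 0 1 : Fin (m + 1) → ℝ) t := by
  rw [hasDerivAt_pi]
  intro i
  refine Fin.cases ?_ (fun j => ?_) i
  · simpa using hasDerivAt_id' (𝕜 := ℝ) t
  · simpa using hasDerivAt_const t (y j)

theorem bsl_der {m : ℕ} {g : ℝ → ℝ} (hg : ContDiff ℝ 1 g) (x : ℝ)
    {F : (Fin (m + 1) → ℝ) → ℝ} (hF : ContDiff ℝ 1 F) (y : Fin m → ℝ) (t : ℝ) :
    HasDerivAt (bsl g x F y) (deriv g (t - x) * F (Fin.cons t y : Fin (m + 1) → ℝ) +
      g (t - x) * pd 0 F (Fin.cons t y : Fin (m + 1) → ℝ)) t := by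
  have h1 : HasDerivAt (fun t => g (t - x)) (deriv g (t - x)) t := by
    have h2 : HasDerivAt g (deriv g (t - x)) (t - x) :=
      (hg.differentiable (by norm_num) (t - x)).hasDerivAt
    simpa using h2.comp_sub_const t x
  have h3 : HasDerivAt (fun t : ℝ => F (Fin.cons t y : Fin (m + 1) → ℝ))
      (pd 0 F (Fin.cons t y : Fin (m + 1) → ℝ)) t := by
    have h2 : HasFDerivAt F (fderiv ℝ F (Fin.cons t y : Fin (m + 1) → ℝ))
        (Fin.cons t y : Fin (m + 1) → ℝ) :=
      (hF.differentiable (by norm_num)).differentiableAt.hasFDerivAt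
    exact h2.comp_hasDerivAt t (hcns y t)
  exact h1.mul h3

theorem bsl_C1 {m : ℕ} {g : ℝ → ℝ} (hg : ContDiff ℝ 1 g) (x : ℝ)
    {F : (Fin (m + 1) → ℝ) → ℝ} (hF : ContDiff ℝ 1 F) (y : Fin m → ℝ) :
    ContDiff ℝ 1 (bsl g x F y) := by
  have h1 : ContDiff ℝ 1 fun t : ℝ => (Fin.cons t y : Fin (m + 1) → ℝ) := by
    rw [contDiff_pi]
    intro i
    refine Fin.cases ?_ (fun j => ?_) i
    · simp only [Fin.cons_zero]
      exact contDiff_id
    · simpa using contDiff_const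
  exact (hg.comp (contDiff_id.sub contDiff_const)).mul (hF.comp h1)

/-- Bessel for the coefficients. -/
theorem par_le (hP : S_PAR) {m : ℕ} {g : ℝ → ℝ} {x ℓ : ℝ} (hℓ : 0 < ℓ) (hg : Continuous g)
    (hg0 : ∀ t, ℓ ≤ |t| → g t = 0) {F : (Fin (m + 1) → ℝ) → ℝ} (hF : Continuous F)
    (y : Fin m → ℝ) (S : Finset ℤ) :
    ∑ k ∈ S, (WW g x ℓ k true F y ^ 2 + WW g x ℓ k false F y ^ 2) ≤ ∫ t, bsl g x F y t ^ 2 := by
  have h1 := (hP ℓ x hℓ (bsl g x F y) (bsl_cont hg x hF y) (bsl_zero hg0 F y)).1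
  simp only [WW_sq hℓ]
  exact sum_le_hasSum S (fun k _ => by positivity) h1

theorem par_le' (hP : S_PAR) {m : ℕ} {g : ℝ → ℝ} {x ℓ : ℝ} (hℓ : 0 < ℓ) (hg : ContDiff ℝ 1 g)
    (hg0 : ∀ t, ℓ ≤ |t| → g t = 0) {F : (Fin (m + 1) → ℝ) → ℝ} (hF : ContDiff ℝ 1 F)
    (y : Fin m → ℝ) (S : Finset ℤ) :
    ∑ k ∈ S, (π * k / ℓ) ^ 2 * (WW g x ℓ k true F y ^ 2 + WW g x ℓ k false F y ^ 2) ≤
      ∫ t, deriv (bsl g x F y) t ^ 2 := by
  have h1 := (hP ℓ x hℓ (bsl g x F y) (bsl_cont hg.continuous x hF.continuous y)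
    (bsl_zero hg0 F y)).2 (bsl_C1 hg x hF y) S
  simp only [WW_sq hℓ]
  exact h1

/-- The hypothesis of [GRM]. -/
theorem grm_hyp {m n : ℕ} {g : ℝ → ℝ} {x ℓ : ℝ} (hℓ : 0 < ℓ) (hg : ContDiff ℝ 1 g)
    (hg0 : ∀ t, ℓ ≤ |t| → g t = 0) (hg1 : ∫ t, g t ^ 2 = 1) (f : Fin n → (Fin (m + 1) → ℝ) → ℝ)
    (hf : ∀ i, ContDiff ℝ 1 (f i)) (hc : ∀ i, HasCompactSupport (f i)) (hG : Gram1 f)
    (e : (Fin m → ℝ) → ℝ) (he : Continuous e) (hec : HasCompactSupport e) (k : ℤ) :
    ∑ i, ((∫ y, WW g x ℓ k true (f i) y * e y) ^ 2 +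
      (∫ y, WW g x ℓ k false (f i) y * e y) ^ 2) ≤ 1 / (2 * ℓ) * ∫ y, e y ^ 2 := by
  have hhc : ∀ b, Continuous (hh g x ℓ k b) := fun b => (hh_C1 hg x ℓ k b).continuous
  -- the test functions
  set φ : Bool → (Fin (m + 1) → ℝ) → ℝ := fun b z => hh g x ℓ k b (z 0) * e (Fin.tail z) with hφ
  have htail : Continuous fun z : Fin (m + 1) → ℝ => Fin.tail z :=
    continuous_pi fun i => continuous_apply _
  have c1 : ∀ b, Continuous (φ b) := fun b =>
    ((hhc b).comp (continuous_apply 0)).mul (he.comp htail)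
  have s1 : ∀ b, HasCompactSupport (φ b) := by
    intro b
    have hK : IsCompact (tsupport e ×ˢ Icc (x - ℓ) (x + ℓ)) := hec.isCompact.prod isCompact_Icc
    refine HasCompactSupport.intro (hK.image (hcn m).continuous) fun z hz => ?_
    show hh g x ℓ k b (z 0) * e (Fin.tail z) = 0
    by_cases h1 : Fin.tail z ∈ tsupport e
    · have h2 : z 0 ∉ Icc (x - ℓ) (x + ℓ) := fun h2 =>
        hz ⟨(Fin.tail z, z 0), ⟨h1, h2⟩, (hcn m).right_inv z⟩
      have h3 : ℓ ≤ |z 0 - x| := by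
        by_contra h4
        rw [not_le, abs_lt] at h4
        exact h2 ⟨by linarith [h4.1], by linarith [h4.2]⟩
      have : hh g x ℓ k b (z 0) = 0 := by
        unfold hh
        rw [hg0 _ h3, zero_mul, mul_zero]
      rw [this, zero_mul]
    · rw [image_eq_zero_of_notMem_tsupport h1, mul_zero]
  have e1 : ∀ i b, ∫ y, WW g x ℓ k b (f i) y * e y = ∫ z, f i z * φ b z := by
    intro i b
    rw [tsl_int (F := fun z => f i z * φ b z) ((hf i).continuous.mul (c1 b)) ((hc i).mul_right)]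
    refine integral_congr_ae (Eventually.of_forall fun y => ?_)
    show WW g x ℓ k b (f i) y * e y = ∫ t, f i (Fin.cons t y : Fin (m + 1) → ℝ) *
      (hh g x ℓ k b ((Fin.cons t y : Fin (m + 1) → ℝ) 0) * e (Fin.tail (Fin.cons t y : Fin (m + 1) → ℝ)))
    unfold WW
    rw [← integral_mul_const]
    refine integral_congr_ae (Eventually.of_forall fun t => ?_)
    simp only [Fin.cons_zero, Fin.tail_cons]
    ring
  have e2 : ∀ b, ∫ z, φ b z ^ 2 = (∫ t, hh g x ℓ k b t ^ 2) * ∫ y, e y ^ 2 := by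
    intro b
    rw [tsl_int (F := fun z => φ b z ^ 2) ((c1 b).pow 2)
        (cs_sq (s1 b)),
      mul_comm, ← integral_mul_const]
    refine integral_congr_ae (Eventually.of_forall fun y => ?_)
    show ∫ t, (hh g x ℓ k b ((Fin.cons t y : Fin (m + 1) → ℝ) 0) *
      e (Fin.tail (Fin.cons t y : Fin (m + 1) → ℝ))) ^ 2 = _
    simp only [Fin.cons_zero, Fin.tail_cons, mul_pow]
    rw [integral_mul_const, mul_comm]
  have hgc : HasCompactSupport fun t => g (t - x) ^ 2 := by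
    refine HasCompactSupport.intro (isCompact_Icc (a := x - ℓ) (b := x + ℓ)) fun t ht => ?_
    have h3 : ℓ ≤ |t - x| := by
      by_contra h4
      rw [not_le, abs_lt] at h4
      exact ht ⟨by linarith [h4.1], by linarith [h4.2]⟩
    show g (t - x) ^ 2 = 0
    rw [hg0 _ h3]
    norm_num
  have hic : ∀ b, Integrable (fun t => hh g x ℓ k b t ^ 2) := by
    intro b
    refine Continuous.integrable_of_hasCompactSupport ((hhc b).pow 2) ?_
    refine HasCompactSupport.intro hgc.isCompact fun t ht => ?_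
    have h3 := image_eq_zero_of_notMem_tsupport ht
    have h4 : g (t - x) = 0 := by simpa using h3
    simp [hh, h4]
  have e3 : (∫ t, hh g x ℓ k true t ^ 2) + (∫ t, hh g x ℓ k false t ^ 2) = 1 / (2 * ℓ) := by
    rw [← integral_add (hic true) (hic false),
      integral_congr_ae (Eventually.of_forall fun t => hh_sq hℓ k t), integral_const_mul,
      integral_sub_right_eq_self (fun t => g t ^ 2) x, hg1, mul_one]
  have b1 := bessel f (fun i => (hf i).continuous) hc hG (φ true) (c1 true) (s1 true)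
  have b2 := bessel f (fun i => (hf i).continuous) hc hG (φ false) (c1 false) (s1 false)
  rw [Finset.sum_add_distrib]
  simp only [e1]
  rw [e2] at b1 b2
  calc _ ≤ (∫ t, hh g x ℓ k true t ^ 2) * (∫ y, e y ^ 2) +
        (∫ t, hh g x ℓ k false t ^ 2) * (∫ y, e y ^ 2) := add_le_add b1 b2
    _ = _ := by rw [← add_mul, e3]

theorem cs_sum {X ι : Type*} [TopologicalSpace X] [R1Space X] (s : Finset ι) {F : ι → X → ℝ}
    (hF : ∀ i ∈ s, HasCompactSupport (F i)) : HasCompactSupport fun x => ∑ i ∈ s, F i x := by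
  classical
  refine HasCompactSupport.intro (K := ⋃ i ∈ s, tsupport (F i))
    (s.isCompact_biUnion fun i hi => hF i hi) fun x hx => ?_
  refine Finset.sum_eq_zero fun i hi => ?_
  refine image_eq_zero_of_notMem_tsupport fun h => hx ?_
  exact Set.mem_biUnion hi h

theorem t_SLC (hP : S_PAR) (hM : S_GRM) : S_SLC := by
  intro ℓ η x hℓ hη hη1 g hg hg0 hg1 m n f hf hc hG K
  set ι := Fin n × ↥(Finset.Icc (-(K:ℤ)) K) × Bool with hι
  set N := Fintype.card ι with hN
  set E : Fin N ≃ ι := (Fintype.equivFin ι).symm with hE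
  set W : ι → (Fin m → ℝ) → ℝ := fun q => WW g x ℓ q.2.1 q.2.2 (f q.1) with hW
  set w : Fin N → (Fin m → ℝ) → ℝ := fun p => W (E p) with hw
  set κ : Fin N → ℤ := fun p => (E p).2.1 with hκ
  have hgc : Continuous g := hg.continuous
  -- sums over the index set
  have S1 : ∀ φ : Fin n → ℤ → Bool → ℝ, ∑ p, φ (E p).1 (E p).2.1 (E p).2.2 =
      ∑ i, ∑ k ∈ Finset.Icc (-(K:ℤ)) K, (φ i k true + φ i k false) := by
    intro φ
    rw [Equiv.sum_comp E fun q : ι => φ q.1 q.2.1 q.2.2, Fintype.sum_prod_type]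
    refine Finset.sum_congr rfl fun i _ => ?_
    rw [Fintype.sum_prod_type]
    simp only [Fintype.sum_bool]
    exact Finset.sum_coe_sort (Finset.Icc (-(K:ℤ)) K) fun k => φ i k true + φ i k false
  have hwC : ∀ p, ContDiff ℝ 1 (w p) := fun p => (WW_C1 hg x ℓ _ _ (hf _) (hc _)).1
  have hwS : ∀ p, HasCompactSupport (w p) := fun p =>
    (WW_cont hg x ℓ _ _ (hf _).continuous (hc _)).2
  have hwc : ∀ p, Continuous (w p) := fun p => (hwC p).continuous
  have hpd : ∀ p (j : Fin m) y, pd j (w p) y =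
      WW g x ℓ (E p).2.1 (E p).2.2 (pd j.succ (f (E p).1)) y := fun p j y =>
    (WW_C1 hg x ℓ _ _ (hf _) (hc _)).2 j y
  have hww : ∀ p q, Integrable (fun y => w p y * w q y) := fun p q =>
    ((hwc p).mul (hwc q)).integrable_of_hasCompactSupport ((hwS p).mul_right)
  -- the Gram matrix
  have hPSD : PSD (Matrix.of fun p q => ∫ y, w p y * w q y : Mat N) := by
    refine ⟨fun i j => ?_, fun v => ?_⟩
    · simp only [Matrix.of_apply]
      exact integral_congr_ae (Eventually.of_forall fun y => mul_comm _ _)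
    · have h1 : ∑ i, ∑ j, v i * v j * (Matrix.of fun p q => ∫ y, w p y * w q y : Mat N) i j =
          ∫ y, (∑ i, v i * w i y) ^ 2 := by
        have h2 : ∀ y, (∑ i, v i * w i y) ^ 2 = ∑ i, ∑ j, v i * v j * (w i y * w j y) := by
          intro y
          rw [sq, Finset.sum_mul_sum]
          refine Finset.sum_congr rfl fun i _ => Finset.sum_congr rfl fun j _ => ?_
          ring
        rw [integral_congr_ae (Eventually.of_forall h2), integral_finsetSum]
        · refine Finset.sum_congr rfl fun i _ => ?_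
          rw [integral_finsetSum]
          · refine Finset.sum_congr rfl fun j _ => ?_
            rw [integral_const_mul]
            rfl
          · intro j _
            exact (hww i j).const_mul _
        · intro i _
          exact integrable_finsetSum _ fun j _ => (hww i j).const_mul _
      rw [h1]
      exact integral_nonneg fun y => sq_nonneg _
  obtain ⟨V, r, hV, hV', hr, hR⟩ := specP hPSD
  have ha : 0 < π ^ 2 / 3 * (1 - η) := by
    have : 0 < 1 - η := by linarith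
    positivity
  have h1 := T_slice (m := m) (n := N) (g := 3 / 2) (a := π ^ 2 / 3 * (1 - η)) ha
    (T_all m (3 / 2) le_rfl) w hwC hwS V r hV hV' hR
  have h2 := hM ℓ η hℓ hη m N w κ hwc hwS (by
    intro e he hec k
    rw [S1 fun i k' b => if k' = k then (∫ y, WW g x ℓ k' b (f i) y * e y) ^ 2 else 0]
    by_cases hk : k ∈ Finset.Icc (-(K:ℤ)) K
    · refine le_trans (le_of_eq ?_) (grm_hyp (x := x) hℓ hg hg0 hg1 f hf hc hG e he hec k)
      refine Finset.sum_congr rfl fun i _ => ?_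
      rw [Finset.sum_eq_single k]
      · simp
      · intro k' _ hk'
        simp [hk']
      · intro h
        exact absurd hk h
    · have h3 : ∑ i : Fin n, ∑ k' ∈ Finset.Icc (-(K:ℤ)) K,
          ((if k' = k then (∫ y, WW g x ℓ k' true (f i) y * e y) ^ 2 else 0) +
          (if k' = k then (∫ y, WW g x ℓ k' false (f i) y * e y) ^ 2 else 0)) = 0 := by
        refine Finset.sum_eq_zero fun i _ => Finset.sum_eq_zero fun k' hk' => ?_
        have : k' ≠ k := fun h => hk (h ▸ hk')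
        simp [this]
      rw [h3]
      have : 0 ≤ ∫ y, e y ^ 2 := integral_nonneg fun y => sq_nonneg _
      positivity) V r hV hV' hr hR
  -- exponents
  have hm1 : (0:ℝ) < (m:ℝ) + 1 := by positivity
  have ep : pp (3 / 2 + (m:ℝ) / 2) = 1 + 2 / ((m:ℝ) + 1) := by
    rw [pp]
    have : (3 / 2 + (m:ℝ) / 2 - 1) = ((m:ℝ) + 1) / 2 := by ring
    rw [this]
    field_simp
    ring
  have ep3 : ∀ i, r i ^ pp (3 / 2) = r i ^ 3 := by
    intro i
    have e2 : pp (3 / 2) = ((3 : ℕ) : ℝ) := by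
      rw [pp]
      norm_num
    rw [e2, Real.rpow_natCast]
  rw [ep] at h1
  simp only [ep3] at h1
  have eL : ∀ y, ∑ p, w p y ^ 2 = ∑ i, ∑ k ∈ Finset.Icc (-(K:ℤ)) K,
      (cc ℓ k (bsl g x (f i) y) ^ 2 + ss ℓ k (bsl g x (f i) y) ^ 2) / (2 * ℓ) := by
    intro y
    rw [show ∑ p, w p y ^ 2 = _ from S1 fun i k b => WW g x ℓ k b (f i) y ^ 2]
    simp only [WW_sq hℓ]
  simp only [eL] at h1
  -- the three comparisons
  have hgx : Continuous fun z : Fin (m + 1) → ℝ => g (z 0 - x) := by fun_prop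
  have hpdc : ∀ i (j : Fin (m + 1)), Continuous (pd j (f i)) := fun i j =>
    (pd_basic (hf i) (hc i) j).1
  have hpds : ∀ i (j : Fin (m + 1)), HasCompactSupport (pd j (f i)) := fun i j =>
    (pd_basic (hf i) (hc i) j).2
  have hA : (∫ y, ∑ k, ∑ p, pd k (w p) y ^ 2) ≤ ∫ y : Fin m → ℝ, ∑ i, ∫ t, (g (t - x) ^ 2 *
      (∑ k : Fin m, pd k.succ (f i) (Fin.cons t y : Fin (m + 1) → ℝ) ^ 2)) := by
    refine integral_mono ?_ ?_ ?_
    · refine Continuous.integrable_of_hasCompactSupport ?_ ?_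
      · exact continuous_finsetSum _ fun k _ => continuous_finsetSum _ fun p _ =>
          ((pd_basic (hwC p) (hwS p) k).1).pow 2
      · exact cs_sum _ fun k _ => cs_sum _ fun p _ => cs_sq (pd_basic (hwC p) (hwS p) k).2
    · refine integrable_finsetSum _ fun i _ => ?_
      have h3 := tsl (m := m) (F := fun z => g (z 0 - x) ^ 2 * ∑ k : Fin m, pd k.succ (f i) z ^ 2)
        ((hgx.pow 2).mul (continuous_finsetSum _ fun k _ => (hpdc i _).pow 2))
        ((cs_sum Finset.univ fun k _ => cs_sq (hpds i _)).mul_left)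
      exact h3.1.integrable_of_hasCompactSupport h3.2
    · intro y
      show ∑ k, ∑ p, pd k (w p) y ^ 2 ≤ ∑ i, ∫ t, (g (t - x) ^ 2 *
        (∑ k : Fin m, pd k.succ (f i) (Fin.cons t y : Fin (m + 1) → ℝ) ^ 2))
      have h3 : ∀ k : Fin m, ∑ p, pd k (w p) y ^ 2 ≤
          ∑ i, ∫ t, bsl g x (pd k.succ (f i)) y t ^ 2 := by
        intro k
        simp only [hpd]
        rw [S1 fun i k' b => WW g x ℓ k' b (pd k.succ (f i)) y ^ 2]
        exact Finset.sum_le_sum fun i _ => par_le hP hℓ hgc hg0 (hpdc i _) y _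
      refine (Finset.sum_le_sum fun k _ => h3 k).trans (le_of_eq ?_)
      rw [Finset.sum_comm]
      refine Finset.sum_congr rfl fun i _ => ?_
      rw [← integral_finsetSum]
      · refine integral_congr_ae (Eventually.of_forall fun t => ?_)
        simp only [bsl, mul_pow, Finset.mul_sum]
      · intro k _
        refine Continuous.integrable_of_hasCompactSupport
          ((bsl_cont hgc x (hpdc i _) y).pow 2) ?_
        refine cs_sq ?_
        exact (tsl_cs (hpds i k.succ) y).mul_left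
  have hB : ∑ p, (π * κ p / ℓ) ^ 2 * (∫ y, w p y ^ 2) ≤
      ∫ y : Fin m → ℝ, ∑ i, ∫ t, deriv (bsl g x (f i) y) t ^ 2 := by
    have h3 : ∑ p, (π * κ p / ℓ) ^ 2 * (∫ y, w p y ^ 2) =
        ∫ y, ∑ p, (π * κ p / ℓ) ^ 2 * w p y ^ 2 := by
      rw [integral_finsetSum]
      · exact Finset.sum_congr rfl fun p _ => (integral_const_mul _ _).symm
      · intro p _
        exact (((hwc p).pow 2).integrable_of_hasCompactSupport (cs_sq (hwS p))).const_mul _
    rw [h3]
    refine integral_mono ?_ ?_ ?_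
    · exact integrable_finsetSum _ fun p _ =>
        (((hwc p).pow 2).integrable_of_hasCompactSupport (cs_sq (hwS p))).const_mul _
    · refine integrable_finsetSum _ fun i _ => ?_
      have h4 : ∀ y, (∫ t, deriv (bsl g x (f i) y) t ^ 2) =
          ∫ t, (fun z : Fin (m + 1) → ℝ => (deriv g (z 0 - x) * f i z +
            g (z 0 - x) * pd 0 (f i) z) ^ 2) (Fin.cons t y : Fin (m + 1) → ℝ) := by
        intro y
        refine integral_congr_ae (Eventually.of_forall fun t => ?_)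
        simp only [(bsl_der hg x (hf i) y t).deriv, Fin.cons_zero]
      have hdg : Continuous (deriv g) := hg.continuous_deriv (by norm_num)
      have hdgx : Continuous fun z : Fin (m + 1) → ℝ => deriv g (z 0 - x) := by fun_prop
      have h5 := tsl (m := m) (F := fun z : Fin (m + 1) → ℝ => (deriv g (z 0 - x) * f i z +
            g (z 0 - x) * pd 0 (f i) z) ^ 2)
        (((hdgx.mul (hf i).continuous).add (hgx.mul (hpdc i 0))).pow 2)
        (cs_sq (((hc i).mul_left).add ((hpds i 0).mul_left)))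
      simp only [h4]
      exact h5.1.integrable_of_hasCompactSupport h5.2
    · intro y
      show ∑ p, (π * κ p / ℓ) ^ 2 * w p y ^ 2 ≤ ∑ i, ∫ t, deriv (bsl g x (f i) y) t ^ 2
      rw [show ∑ p, (π * κ p / ℓ) ^ 2 * w p y ^ 2 = _ from
        S1 fun i k b => (π * k / ℓ) ^ 2 * WW g x ℓ k b (f i) y ^ 2]
      refine Finset.sum_le_sum fun i _ => ?_
      simp only [← mul_add]
      exact par_le' hP hℓ hg hg0 (hf i) y _
  have hC : ∑ p, (∫ y, w p y ^ 2) ≤ ∫ y : Fin m → ℝ, ∑ i, ∫ t, bsl g x (f i) y t ^ 2 := by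
    have h6 : ∀ p, Integrable (fun y => w p y ^ 2) := fun p =>
      ((hwc p).pow 2).integrable_of_hasCompactSupport (cs_sq (hwS p))
    rw [← integral_finsetSum _ fun p _ => h6 p]
    refine integral_mono ?_ ?_ ?_
    · exact integrable_finsetSum _ fun p _ => h6 p
    · refine integrable_finsetSum _ fun i _ => ?_
      have h5 := tsl (m := m) (F := fun z : Fin (m + 1) → ℝ => (g (z 0 - x) * f i z) ^ 2)
        ((hgx.mul (hf i).continuous).pow 2) (cs_sq ((hc i).mul_left))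
      exact h5.1.integrable_of_hasCompactSupport h5.2
    · intro y
      show ∑ p, w p y ^ 2 ≤ ∑ i, ∫ t, bsl g x (f i) y t ^ 2
      rw [show ∑ p, w p y ^ 2 = _ from S1 fun i k b => WW g x ℓ k b (f i) y ^ 2]
      exact Finset.sum_le_sum fun i _ => par_le hP hℓ hgc hg0 (hf i).continuous y _
  have hcon : 0 ≤ 3 * π ^ 2 / (16 * η * ℓ ^ 2) := by positivity
  have hC' := mul_le_mul_of_nonneg_left hC hcon
  linarith

end Pool.Agent.L7h96.SC
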