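import Pool.Agent.L7h96.SC.A0

set_option autoImplicit false

/-!
# Removing the average in the first coordinate
-/

open MeasureTheory Set Filter Topology Real
open scoped ENNReal Matrix

namespace Pool.Agent.L7h96.SC

open Pool.Agent.L7h99.SC
open LTd hiding cc

/-- The average along the first coordinate. -/
noncomputable def Mv {m : ℕ} (w : ℝ → ℝ) (F : (Fin (m + 1) → ℝ) → ℝ) (z : Fin (m + 1) → ℝ) : ℝ :=
  ∫ s : ℝ, w s * F (z + Pi.single 0 s)

theorem c_sgl {m : ℕ} : Continuous fun s : ℝ => (Pi.single 0 s : Fin (m + 1) → ℝ) :=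
  continuous_single (A := fun _ : Fin (m + 1) => ℝ) 0

theorem Mv_prop {m : ℕ} {ℓ : ℝ} {w : ℝ → ℝ} (hw : Continuous w) (h0 : ∀ t, ℓ ≤ |t| → w t = 0)
    {F : (Fin (m + 1) → ℝ) → ℝ} (hF : Continuous F) (hc : HasCompactSupport F) :
    Continuous (Mv w F) ∧ HasCompactSupport (Mv w F) ∧
    (∀ z : Fin (m + 1) → ℝ, Integrable fun s : ℝ => w s * F (z + Pi.single 0 s)) ∧
    ∫ z, Mv w F z = (∫ s, w s) * ∫ z, F z := by
  have hadd : Continuous fun p : (Fin (m + 1) → ℝ) × ℝ => p.1 + (Pi.single 0 p.2 : Fin (m + 1) → ℝ) :=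
    continuous_fst.add (c_sgl.comp continuous_snd)
  have hsub : Continuous fun p : (Fin (m + 1) → ℝ) × ℝ =>
      ((p.1 - (Pi.single 0 p.2 : Fin (m + 1) → ℝ), p.2) : (Fin (m + 1) → ℝ) × ℝ) :=
    (continuous_fst.sub (c_sgl.comp continuous_snd)).prodMk continuous_snd
  have h1 : Continuous (Function.uncurry fun (z : Fin (m + 1) → ℝ) (s : ℝ) =>
      w s * F (z + Pi.single 0 s)) := (hw.comp continuous_snd).mul (hF.comp hadd)
  have hK : IsCompact (tsupport F ×ˢ Icc (-ℓ) ℓ) := hc.isCompact.prod isCompact_Icc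
  have h2 : HasCompactSupport (Function.uncurry fun (z : Fin (m + 1) → ℝ) (s : ℝ) =>
      w s * F (z + Pi.single 0 s)) := by
    refine HasCompactSupport.intro (hK.image hsub) fun p hp => ?_
    obtain ⟨z, s⟩ := p
    show w s * F (z + Pi.single 0 s) = 0
    by_cases h1 : z + (Pi.single 0 s : Fin (m + 1) → ℝ) ∈ tsupport F
    · have h3 : ℓ ≤ |s| := by
        by_contra h4
        rw [not_le, abs_lt] at h4
        exact hp ⟨(z + Pi.single 0 s, s), ⟨h1, ⟨h4.1.le, h4.2.le⟩⟩, by simp⟩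
      rw [h0 _ h3, zero_mul]
    · rw [image_eq_zero_of_notMem_tsupport h1, mul_zero]
  obtain ⟨h3, h4⟩ := par volume _ h1 h2
  refine ⟨h3, h4, fun z => ?_, ?_⟩
  · refine (h1.comp (Continuous.prodMk_right z)).integrable_of_hasCompactSupport ?_
    refine HasCompactSupport.intro (isCompact_Icc (a := -ℓ) (b := ℓ)) fun s hs => ?_
    have h3 : ℓ ≤ |s| := by
      by_contra h4
      rw [not_le, abs_lt] at h4
      exact hs ⟨h4.1.le, h4.2.le⟩
    show w s * F (z + Pi.single 0 s) = 0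
    rw [h0 _ h3, zero_mul]
  · unfold Mv
    rw [integral_integral_swap_of_hasCompactSupport h1 h2, ← integral_mul_const]
    refine integral_congr_ae (Eventually.of_forall fun s => ?_)
    show ∫ z : Fin (m + 1) → ℝ, w s * F (z + Pi.single 0 s) = w s * ∫ z, F z
    rw [integral_const_mul, integral_add_right_eq_self]

theorem cons_add {m : ℕ} (x s : ℝ) (y : Fin m → ℝ) :
    (Fin.cons x y : Fin (m + 1) → ℝ) + Pi.single 0 s = Fin.cons (x + s) y := by
  funext i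
  refine Fin.cases ?_ (fun j => ?_) i
  · simp
  · simp [Pi.single_apply]

theorem young {q b ψ : ℝ} (hq : 1 < q) (hb : 0 ≤ b) (hψ : 0 ≤ ψ) :
    q * (ψ ^ (q - 1) * b) ≤ b ^ q + (q - 1) * ψ ^ q := by
  have hq0 : 0 < q := by linarith
  have hc : q.HolderConjugate (q / (q - 1)) := Real.HolderConjugate.conjExponent hq
  have h1 := Real.young_inequality_of_nonneg hb (Real.rpow_nonneg hψ (q - 1)) hc
  have h2 : (ψ ^ (q - 1)) ^ (q / (q - 1)) = ψ ^ q := by
    have h3 : q - 1 ≠ 0 := by linarith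
    rw [← Real.rpow_mul hψ]
    congr 1
    field_simp
  rw [h2] at h1
  have h3 : q * (b * ψ ^ (q - 1)) ≤ q * (b ^ q / q + ψ ^ q / (q / (q - 1))) :=
    mul_le_mul_of_nonneg_left h1 hq0.le
  have h4 : q * (b ^ q / q + ψ ^ q / (q / (q - 1))) = b ^ q + (q - 1) * ψ ^ q := by
    have : q - 1 ≠ 0 := by linarith
    field_simp
  linarith [mul_comm (ψ ^ (q - 1)) b]

/-- The trapezoid. -/
noncomputable def trp (ℓ s : ℝ) : ℝ := max 0 (min 1 (2 - 2 * |s| / ℓ))

theorem trp_cont (ℓ : ℝ) : Continuous (trp ℓ) := by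
  unfold trp
  fun_prop

theorem trp_zero {ℓ : ℝ} (hℓ : 0 < ℓ) (s : ℝ) (hs : ℓ ≤ |s|) : trp ℓ s = 0 := by
  unfold trp
  have : 2 - 2 * |s| / ℓ ≤ 0 := by
    rw [sub_nonpos, le_div_iff₀ hℓ]
    linarith
  exact max_eq_left ((min_le_right _ _).trans this)

theorem trp_one {ℓ : ℝ} (hℓ : 0 < ℓ) (s : ℝ) (hs : |s| ≤ ℓ / 2) : trp ℓ s = 1 := by
  unfold trp
  have : 1 ≤ 2 - 2 * |s| / ℓ := by
    have : 2 * |s| / ℓ ≤ 1 := by
      rw [div_le_one hℓ]
      linarith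
    linarith
  rw [min_eq_left this]
  norm_num

theorem trp_nonneg (ℓ s : ℝ) : 0 ≤ trp ℓ s := le_max_left _ _

theorem trp_le (ℓ s : ℝ) : trp ℓ s ≤ 1 := max_le zero_le_one (min_le_left _ _)

theorem trp_int {ℓ : ℝ} (hℓ : 0 < ℓ) : ∫ s, trp ℓ s ≤ 2 * ℓ := by
  have h1 : ∫ s, trp ℓ s = ∫ s in Icc (-ℓ) ℓ, trp ℓ s := by
    refine (setIntegral_eq_integral_of_forall_compl_eq_zero fun s hs => trp_zero hℓ s ?_).symm
    by_contra h4
    rw [not_le, abs_lt] at h4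
    exact hs ⟨h4.1.le, h4.2.le⟩
  rw [h1]
  have h2 : ∫ s in Icc (-ℓ) ℓ, trp ℓ s ≤ ∫ s in Icc (-ℓ) ℓ, (1:ℝ) := by
    refine setIntegral_mono ?_ ?_ fun s => trp_le ℓ s
    · exact (trp_cont ℓ).continuousOn.integrableOn_compact isCompact_Icc
    · exact continuousOn_const.integrableOn_compact isCompact_Icc
  refine h2.trans (le_of_eq ?_)
  rw [setIntegral_const, smul_eq_mul, mul_one, Measure.real, Real.volume_Icc,
    ENNReal.toReal_ofReal (by linarith)]
  ring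

theorem sh_bound {m : ℕ} {ℓ : ℝ} (hℓ : 0 < ℓ) {F : (Fin (m + 1) → ℝ) → ℝ} (hF : ContDiff ℝ 1 F)
    (hc : HasCompactSupport F) (z : Fin (m + 1) → ℝ) (s : ℝ) (hs : |s| ≤ ℓ / 2) :
    F (z + Pi.single 0 s) ≤ F z + Mv (trp ℓ) (fun z => |pd 0 F z|) z := by
  have hpd := pd_basic hF hc 0
  have hcont : Continuous fun r : ℝ => pd 0 F (z + Pi.single 0 r) :=
    hpd.1.comp (continuous_const.add c_sgl)
  have hder : ∀ r : ℝ, HasDerivAt (fun r : ℝ => F (z + Pi.single 0 r))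
      (pd 0 F (z + Pi.single 0 r)) r := by
    intro r
    have h1 : HasDerivAt (fun r : ℝ => z + (Pi.single 0 r : Fin (m + 1) → ℝ))
        (Pi.single 0 1 : Fin (m + 1) → ℝ) r := by
      rw [hasDerivAt_pi]
      intro i
      by_cases hi : i = 0
      · subst hi
        simpa using (hasDerivAt_id' r).const_add (z 0)
      · simp only [Pi.add_apply, Pi.single_apply, hi, if_false, add_zero]
        exact hasDerivAt_const _ _
    have h2 : HasFDerivAt F (fderiv ℝ F (z + Pi.single 0 r)) (z + Pi.single 0 r) :=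
      (hF.differentiable (by norm_num)).differentiableAt.hasFDerivAt
    exact h2.comp_hasDerivAt r h1
  have h1 : ∫ r in (0:ℝ)..s, pd 0 F (z + Pi.single 0 r) = F (z + Pi.single 0 s) - F z := by
    rw [intervalIntegral.integral_eq_sub_of_hasDerivAt (fun r _ => hder r)
      (hcont.intervalIntegrable _ _)]
    simp
  obtain ⟨-, -, hi, -⟩ := Mv_prop (m := m) (trp_cont ℓ) (trp_zero hℓ) (F := fun z => |pd 0 F z|)
    hpd.1.abs (hpd.2.comp_left (g := fun r : ℝ => |r|) (by simp))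
  have h2 : |∫ r in (0:ℝ)..s, pd 0 F (z + Pi.single 0 r)| ≤
      ∫ r in Set.uIoc 0 s, |pd 0 F (z + Pi.single 0 r)| := by
    have := intervalIntegral.norm_integral_le_integral_norm_uIoc (a := 0) (b := s)
      (f := fun r => pd 0 F (z + Pi.single 0 r)) (μ := volume)
    simpa only [Real.norm_eq_abs] using this
  have h3 : ∫ r in Set.uIoc 0 s, |pd 0 F (z + Pi.single 0 r)| =
      ∫ r in Set.uIoc 0 s, trp ℓ r * |pd 0 F (z + Pi.single 0 r)| := by
    refine setIntegral_congr_fun measurableSet_uIoc fun r hr => ?_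
    have : |r| ≤ ℓ / 2 := by
      rcases le_total 0 s with h | h
      · rw [Set.uIoc_of_le h] at hr
        rw [abs_of_nonneg hr.1.le]
        rw [abs_of_nonneg h] at hs
        linarith [hr.2]
      · rw [Set.uIoc_of_ge h] at hr
        rw [abs_of_nonpos h] at hs
        rw [abs_of_nonpos hr.2]
        linarith [hr.1]
    show _ = trp ℓ r * _
    rw [trp_one hℓ r this, one_mul]
  have h4 : ∫ r in Set.uIoc 0 s, trp ℓ r * |pd 0 F (z + Pi.single 0 r)| ≤
      ∫ r, trp ℓ r * |pd 0 F (z + Pi.single 0 r)| :=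
    setIntegral_le_integral (hi z) (Eventually.of_forall fun r =>
      mul_nonneg (trp_nonneg _ _) (abs_nonneg _))
  have h5 := le_abs_self (∫ r in (0:ℝ)..s, pd 0 F (z + Pi.single 0 r))
  unfold Mv
  rw [h1] at h5 h2
  linarith [h2, h3.le, h4]

/-- The pointwise inequality. -/
theorem sm_point {m : ℕ} {ℓ B q : ℝ} (hℓ : 0 < ℓ) (hB : 0 < B) (hq : 1 < q) {w : ℝ → ℝ}
    (hw : Continuous w) (hw0 : ∀ t, ℓ / 2 ≤ |t| → w t = 0) (hwn : ∀ t, 0 ≤ w t)
    {σ : (Fin (m + 1) → ℝ) → ℝ} (hσ : ContDiff ℝ 1 σ) (hc : HasCompactSupport σ)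
    (hσ0 : ∀ z, 0 ≤ σ z) (hσB : ∀ z, σ z ≤ B) (z : Fin (m + 1) → ℝ) :
    q * Mv w (fun z => σ z ^ q) z - (q - 1) * (σ z ^ q + q * B ^ (q - 1) *
      Mv (trp ℓ) (fun z => |pd 0 σ z|) z) ≤ Mv w σ z ^ q := by
  have hq0 : 0 < q := by linarith
  set H := Mv (trp ℓ) (fun z => |pd 0 σ z|) z with hH
  have hH0 : 0 ≤ H := integral_nonneg fun s => mul_nonneg (trp_nonneg _ _) (abs_nonneg _)
  set ψ := min B (σ z + H) with hψ
  have hψ0 : 0 ≤ ψ := le_min hB.le (add_nonneg (hσ0 z) hH0)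
  have hψB : ψ ≤ B := min_le_left _ _
  have hσψ : σ z ≤ ψ := le_min (hσB z) (by linarith)
  have hσs : ∀ s, |s| ≤ ℓ / 2 → σ (z + Pi.single 0 s) ≤ ψ := fun s hs =>
    le_min (hσB _) (sh_bound hℓ hσ hc z s hs)
  set b := Mv w σ z with hb
  have hb0 : 0 ≤ b := integral_nonneg fun s => mul_nonneg (hwn _) (hσ0 _)
  -- `c ≤ ψ^(q-1) b`
  have hcb : Mv w (fun z => σ z ^ q) z ≤ ψ ^ (q - 1) * b := by
    rw [hb]
    unfold Mv
    rw [← integral_const_mul]
    obtain ⟨-, -, i1, -⟩ := Mv_prop (m := m) hw hw0 (F := fun z => σ z ^ q)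
      (hσ.continuous.rpow_const fun y => Or.inr hq0.le) (rpow_cs hq0 hc)
    obtain ⟨-, -, i2, -⟩ := Mv_prop (m := m) hw hw0 (F := σ) hσ.continuous hc
    refine integral_mono (i1 z) ((i2 z).const_mul _) fun s => ?_
    show w s * σ (z + Pi.single 0 s) ^ q ≤ ψ ^ (q - 1) * (w s * σ (z + Pi.single 0 s))
    by_cases hs : |s| ≤ ℓ / 2
    · have h1 : σ (z + Pi.single 0 s) ^ q =
          σ (z + Pi.single 0 s) ^ (q - 1) * σ (z + Pi.single 0 s) := by
        have : q = (q - 1) + 1 := by ring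
        conv_lhs => rw [this]
        rw [Real.rpow_add_one' (hσ0 _) (by linarith)]
      rw [h1]
      have h2 : σ (z + Pi.single 0 s) ^ (q - 1) ≤ ψ ^ (q - 1) :=
        Real.rpow_le_rpow (hσ0 _) (hσs s hs) (by linarith)
      have h3 : 0 ≤ w s * σ (z + Pi.single 0 s) := mul_nonneg (hwn _) (hσ0 _)
      nlinarith [mul_le_mul_of_nonneg_right h2 h3]
    · rw [hw0 s (le_of_not_ge hs)]
      simp
  have h1 := young hq hb0 hψ0
  have h2 := young hq (hσ0 z) hψ0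
  -- `ψ^q ≤ σ^q + q B^(q-1) H`
  have h3 : ψ ^ q ≤ σ z ^ q + q * B ^ (q - 1) * H := by
    have h4 : ψ ^ q = ψ ^ (q - 1) * ψ := by
      have : q = (q - 1) + 1 := by ring
      conv_lhs => rw [this]
      rw [Real.rpow_add_one' hψ0 (by linarith)]
    have h5 : ψ ^ q - σ z ^ q ≤ q * (ψ ^ (q - 1) * (ψ - σ z)) := by
      rw [mul_sub]
      rw [← h4]
      linarith
    have h6 : ψ - σ z ≤ H := by
      have := min_le_right B (σ z + H)
      linarith
    have h7 : ψ ^ (q - 1) ≤ B ^ (q - 1) := Real.rpow_le_rpow hψ0 hψB (by linarith)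
    have h8 : ψ ^ (q - 1) * (ψ - σ z) ≤ B ^ (q - 1) * H :=
      mul_le_mul h7 h6 (by linarith) (Real.rpow_nonneg hB.le _)
    nlinarith [mul_le_mul_of_nonneg_left h8 hq0.le]
  have h9 : (q - 1) * ψ ^ q ≤ (q - 1) * (σ z ^ q + q * B ^ (q - 1) * H) :=
    mul_le_mul_of_nonneg_left h3 (by linarith)
  have h10 : q * Mv w (fun z => σ z ^ q) z ≤ q * (ψ ^ (q - 1) * b) :=
    mul_le_mul_of_nonneg_left hcb hq0.le
  linarith

/-- The integrated inequality. -/
theorem sm_int {m : ℕ} {ℓ B q : ℝ} (hℓ : 0 < ℓ) (hB : 0 < B) (hq : 1 < q) {w : ℝ → ℝ}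
    (hw : Continuous w) (hw0 : ∀ t, ℓ / 2 ≤ |t| → w t = 0) (hwn : ∀ t, 0 ≤ w t)
    (hw1 : ∫ t, w t = 1)
    {σ : (Fin (m + 1) → ℝ) → ℝ} (hσ : ContDiff ℝ 1 σ) (hc : HasCompactSupport σ)
    (hσ0 : ∀ z, 0 ≤ σ z) (hσB : ∀ z, σ z ≤ B) :
    (∫ z, σ z ^ q) - 2 * q * (q - 1) * B ^ (q - 1) * ℓ * ∫ z, |pd 0 σ z| ≤
      ∫ z, Mv w σ z ^ q := by
  have hq0 : 0 < q := by linarith
  have hpd := pd_basic hσ hc 0
  have hac : Continuous fun z => |pd 0 σ z| := hpd.1.abs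
  have has : HasCompactSupport fun z => |pd 0 σ z| := hpd.2.comp_left (g := fun r : ℝ => |r|) (by simp)
  have hqc : Continuous fun z => σ z ^ q := hσ.continuous.rpow_const fun y => Or.inr hq0.le
  have hqs : HasCompactSupport fun z => σ z ^ q := rpow_cs hq0 hc
  obtain ⟨a1, a2, -, a4⟩ := Mv_prop (m := m) hw hw0 hqc hqs
  obtain ⟨b1, b2, -, -⟩ := Mv_prop (m := m) hw hw0 hσ.continuous hc
  obtain ⟨c1, c2, -, c4⟩ := Mv_prop (m := m) (trp_cont ℓ) (trp_zero hℓ) hac has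
  have i1 : Integrable fun z => q * Mv w (fun z => σ z ^ q) z :=
    (a1.integrable_of_hasCompactSupport a2).const_mul q
  have i2 : Integrable fun z => σ z ^ q := hqc.integrable_of_hasCompactSupport hqs
  have i3 : Integrable fun z => q * B ^ (q - 1) * Mv (trp ℓ) (fun z => |pd 0 σ z|) z :=
    (c1.integrable_of_hasCompactSupport c2).const_mul _
  have i4 : Integrable fun z => (q - 1) * (σ z ^ q + q * B ^ (q - 1) *
      Mv (trp ℓ) (fun z => |pd 0 σ z|) z) := (i2.add i3).const_mul _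
  have i5 : Integrable fun z => Mv w σ z ^ q := by
    refine Continuous.integrable_of_hasCompactSupport ?_ (rpow_cs hq0 b2)
    exact b1.rpow_const fun y => Or.inr hq0.le
  have h1 := integral_mono (i1.sub i4) i5 (fun z => sm_point hℓ hB hq hw hw0 hwn hσ hc hσ0 hσB z)
  refine le_trans ?_ h1
  have h2 : ∫ z, ((fun z => q * Mv w (fun z => σ z ^ q) z) - fun z => (q - 1) * (σ z ^ q +
      q * B ^ (q - 1) * Mv (trp ℓ) (fun z => |pd 0 σ z|) z)) z =
      q * (∫ z, σ z ^ q) - (q - 1) * ((∫ z, σ z ^ q) + q * B ^ (q - 1) *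
        ((∫ s, trp ℓ s) * ∫ z, |pd 0 σ z|)) := by
    simp only [Pi.sub_apply]
    rw [integral_sub i1 i4, integral_const_mul, integral_const_mul, integral_add i2 i3,
      integral_const_mul, a4, c4, hw1, one_mul]
  rw [h2]
  have h3 : (∫ s, trp ℓ s) * (∫ z, |pd 0 σ z|) ≤ 2 * ℓ * ∫ z, |pd 0 σ z| :=
    mul_le_mul_of_nonneg_right (trp_int hℓ) (integral_nonneg fun z => abs_nonneg _)
  have h4 : (q - 1) * (q * B ^ (q - 1)) * ((∫ s, trp ℓ s) * ∫ z, |pd 0 σ z|) ≤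
      (q - 1) * (q * B ^ (q - 1)) * (2 * ℓ * ∫ z, |pd 0 σ z|) := by
    refine mul_le_mul_of_nonneg_left h3 ?_
    have := Real.rpow_nonneg hB.le (q - 1)
    have : 0 ≤ q - 1 := by linarith
    positivity
  linarith

theorem den_C1 {d n : ℕ} {f : Fin n → (Fin d → ℝ) → ℝ} (hf : ∀ i, ContDiff ℝ 1 (f i)) :
    ContDiff ℝ 1 (den f) := by
  unfold den
  exact ContDiff.sum fun i _ => (hf i).pow 2

/-- A fixed profile. -/
theorem exists_prof : ∃ g : ℝ → ℝ, ContDiff ℝ 1 g ∧ (∀ t, 1 / 2 ≤ |t| → g t = 0) ∧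
    ∫ t, g t ^ 2 = 1 := by
  let φ : ContDiffBump (0:ℝ) := ⟨1 / 4, 1 / 2, by norm_num, by norm_num⟩
  have h1 : ContDiff ℝ 1 φ := φ.contDiff
  have hs : HasCompactSupport φ := φ.hasCompactSupport
  have hi : Integrable fun t => φ t ^ 2 :=
    (h1.continuous.pow 2).integrable_of_hasCompactSupport (cs_sq hs)
  have hpos : 0 < ∫ t, φ t ^ 2 := by
    rw [integral_pos_iff_support_of_nonneg (fun t => sq_nonneg _) hi]
    have : Function.support (fun t => φ t ^ 2) = Metric.ball (0:ℝ) (1 / 2) := by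
      rw [← φ.support_eq]
      ext t
      simp
    rw [this]
    exact Metric.measure_ball_pos _ _ (by norm_num)
  refine ⟨fun t => (√(∫ t, φ t ^ 2))⁻¹ * φ t, contDiff_const.mul h1, fun t ht => ?_, ?_⟩
  · have : φ t = 0 := φ.zero_of_le_dist (by
      rw [Real.dist_eq, sub_zero]
      exact ht)
    show _ * φ t = 0
    rw [this, mul_zero]
  · simp only [mul_pow]
    rw [integral_const_mul, inv_pow, Real.sq_sqrt hpos.le]
    exact inv_mul_cancel₀ hpos.ne'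

theorem t_SM0 (hA : S_A0) : S_SM0 := by
  obtain ⟨g₁, hg, hg0, hg1⟩ := exists_prof
  set G : ℝ := ∫ t, deriv g₁ t ^ 2 with hG
  have hG0 : 0 ≤ G := integral_nonneg fun t => sq_nonneg _
  refine ⟨G + 3 * π ^ 2 / 16, by positivity, ?_⟩
  intro ℓ η B hℓ hη hη1 hB m n f hf hc hGr hden
  set q : ℝ := 1 + 2 / ((m:ℝ) + 1) with hqd
  have hm1 : (0:ℝ) < (m:ℝ) + 1 := by positivity
  have hq1 : q - 1 = 2 / ((m:ℝ) + 1) := by rw [hqd]; ring
  have hq : 1 < q := by
    have : 0 < 2 / ((m:ℝ) + 1) := by positivity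
    linarith
  have hq3 : q ≤ 3 := by
    have : 2 / ((m:ℝ) + 1) ≤ 2 := by
      rw [div_le_iff₀ hm1]
      have : (0:ℝ) ≤ m := Nat.cast_nonneg m
      linarith
    linarith
  set g : ℝ → ℝ := fun t => (√ℓ)⁻¹ * g₁ (ℓ⁻¹ * t) with hgd
  have hgC : ContDiff ℝ 1 g :=
    contDiff_const.mul (hg.comp (contDiff_const.mul contDiff_id))
  have hgz : ∀ t, ℓ / 2 ≤ |t| → g t = 0 := by
    intro t ht
    have : g₁ (ℓ⁻¹ * t) = 0 := by
      refine hg0 _ ?_
      rw [abs_mul, abs_of_pos (inv_pos.2 hℓ)]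
      have := mul_le_mul_of_nonneg_left ht (inv_pos.2 hℓ).le
      have h2 : ℓ⁻¹ * (ℓ / 2) = 1 / 2 := by field_simp
      linarith
    rw [hgd]
    simp only
    rw [this, mul_zero]
  have hgi : ∫ t, g t ^ 2 = 1 := by
    have h1 : ∀ t, g t ^ 2 = ℓ⁻¹ * (fun u => g₁ u ^ 2) (ℓ⁻¹ * t) := by
      intro t
      simp only [hgd, mul_pow, inv_pow]
      rw [Real.sq_sqrt hℓ.le]
    rw [integral_congr_ae (Eventually.of_forall h1), integral_const_mul,
      Measure.integral_comp_mul_left (fun u => g₁ u ^ 2), hg1, inv_inv, abs_of_pos hℓ, smul_eq_mul,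
      mul_one]
    exact inv_mul_cancel₀ hℓ.ne'
  have hgd' : ∫ t, deriv g t ^ 2 = G / ℓ ^ 2 := by
    have h1 : ∀ t, deriv g t ^ 2 = (ℓ⁻¹) ^ 3 * (fun u => deriv g₁ u ^ 2) (ℓ⁻¹ * t) := by
      intro t
      have h2 : HasDerivAt g₁ (deriv g₁ (ℓ⁻¹ * t)) (ℓ⁻¹ * t) :=
        (hg.differentiable (by norm_num) _).hasDerivAt
      have h3 : HasDerivAt (fun t : ℝ => ℓ⁻¹ * t) ℓ⁻¹ t := by
        simpa using (hasDerivAt_id' t).const_mul ℓ⁻¹
      have h4 : HasDerivAt g ((√ℓ)⁻¹ * (deriv g₁ (ℓ⁻¹ * t) * ℓ⁻¹)) t :=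
        (h2.comp t h3).const_mul _
      rw [h4.deriv]
      simp only [mul_pow, inv_pow]
      rw [Real.sq_sqrt hℓ.le]
      field_simp
    rw [integral_congr_ae (Eventually.of_forall h1), integral_const_mul,
      Measure.integral_comp_mul_left (fun u => deriv g₁ u ^ 2), inv_inv, abs_of_pos hℓ, smul_eq_mul,
      ← hG]
    field_simp
  have h1 := hA ℓ η hℓ hη hη1 g hgC (fun t ht => hgz t (by linarith)) hgi m n f hf hc hGr
  -- the left-hand side
  have hw : Continuous fun t => g t ^ 2 := hgC.continuous.pow 2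
  have hw0 : ∀ t, ℓ / 2 ≤ |t| → g t ^ 2 = 0 := fun t ht => by rw [hgz t ht]; norm_num
  have hfc : ∀ i, Continuous (f i) := fun i => (hf i).continuous
  have h2 := sm_int (m := m) (q := q) hℓ hB hq hw hw0 (fun t => sq_nonneg _) hgi (den_C1 hf) (den_cs hc)
    (den_nonneg f) hden
  obtain ⟨b1, b2, -, -⟩ := Mv_prop (m := m) hw hw0 (den_cont hfc) (den_cs hc)
  have hq0 : 0 < q := by linarith
  have e1 : ∀ x (y : Fin m → ℝ), ∫ t, g (t - x) ^ 2 * den f (Fin.cons t y : Fin (m + 1) → ℝ) =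
      Mv (fun t => g t ^ 2) (den f) (Fin.cons x y : Fin (m + 1) → ℝ) := by
    intro x y
    unfold Mv
    simp only [cons_add]
    rw [← integral_sub_right_eq_self (fun s => g s ^ 2 *
      den f (Fin.cons (x + s) y : Fin (m + 1) → ℝ)) x]
    simp
  simp only [e1] at h1
  have e2 := slice_int (m := m) (f := fun z => Mv (fun t => g t ^ 2) (den f) z ^ q)
    (b1.rpow_const fun y => Or.inr hq0.le) (rpow_cs hq0 b2)
  rw [← e2] at h1
  have hK : 0 ≤ (1 - η) ^ (1 / ((m:ℝ) + 1)) * LTd.Kcl (m + 1) := by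
    have h3 : 0 ≤ (1 - η) ^ (1 / ((m:ℝ) + 1)) := Real.rpow_nonneg (by linarith) _
    have h4 : 0 ≤ LTd.Kcl (m + 1) := by
      unfold LTd.Kcl
      positivity
    exact mul_nonneg h3 h4
  have hI : 0 ≤ ∫ z, |LTd.pd 0 (den f) z| := integral_nonneg fun z => abs_nonneg _
  have hBq := Real.rpow_nonneg hB.le (q - 1)
  have h5 : (∫ x, den f x ^ q) - 12 / ((m:ℝ) + 1) * B ^ (q - 1) * ℓ * (∫ x, |LTd.pd 0 (den f) x|) ≤
      (∫ z, den f z ^ q) - 2 * q * (q - 1) * B ^ (q - 1) * ℓ * ∫ z, |LTd.pd 0 (den f) z| := by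
    have h6 : 2 * q * (q - 1) ≤ 12 / ((m:ℝ) + 1) := by
      have h7 : 12 / ((m:ℝ) + 1) = 2 * 3 * (q - 1) := by
        rw [hq1]
        ring
      rw [h7]
      have : 0 ≤ q - 1 := by linarith
      nlinarith
    have h8 : 2 * q * (q - 1) * (B ^ (q - 1) * ℓ * ∫ z, |LTd.pd 0 (den f) z|) ≤
        12 / ((m:ℝ) + 1) * (B ^ (q - 1) * ℓ * ∫ z, |LTd.pd 0 (den f) z|) :=
      mul_le_mul_of_nonneg_right h6 (by positivity)
    linarith
  have h9 := mul_le_mul_of_nonneg_left (h5.trans h2) hK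
  rw [← hq1]
  refine (h9.trans h1).trans ?_
  have hD : 0 ≤ ∫ x, den f x := integral_nonneg (den_nonneg f)
  have h10 : (∫ t, deriv g t ^ 2) + 3 * π ^ 2 / (16 * η * ℓ ^ 2) ≤
      (G + 3 * π ^ 2 / 16) / (η * ℓ ^ 2) := by
    rw [hgd', add_div]
    have h11 : G / ℓ ^ 2 ≤ G / (η * ℓ ^ 2) := by
      refine div_le_div_of_nonneg_left hG0 (by positivity) ?_
      have : 0 < ℓ ^ 2 := by positivity
      nlinarith
    have h12 : 3 * π ^ 2 / (16 * η * ℓ ^ 2) = 3 * π ^ 2 / 16 / (η * ℓ ^ 2) := by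
      field_simp
    rw [h12]
    linarith
  have h13 := mul_le_mul_of_nonneg_right h10 hD
  linarith

end Pool.Agent.L7h96.SC
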